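import Pool.Agent.Lib.HowF.Word

/-!
# Freiheitssatz for three groups and one relator with commuting coefficients
-/

set_option autoImplicit false

open Monoid (Coprod)
open Monoid.Coprod (inl inr fst snd lift map)

namespace Pool.Agent.Lib.HowF

/-- two groups as a family -/
def bfam (K G : Type) : Bool → Type
  | false => K
  | true => G

instance bfamGroup (K G : Type) [Group K] [Group G] : ∀ b, Group (bfam K G b)
  | false => ‹Group K›
  | true => ‹Group G›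

/-- two homomorphisms as a family -/
def bhom {H K G : Type} [Group H] [Group K] [Group G] (α : H →* K) (β : H →* G) :
    ∀ b, H →* bfam K G b
  | false => α
  | true => β

/-- amalgamated products of two groups -/
theorem amalg {H K G : Type} [Group H] [Group K] [Group G] (α : H →* K) (β : H →* G)
    (hα : Function.Injective α) (hβ : Function.Injective β) :
    ∃ (P : Type) (_ : Group P) (i : K →* P) (j : G →* P),
      Function.Injective i ∧ Function.Injective j ∧ ∀ h, i (α h) = j (β h) := by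
  have hφ : ∀ b, Function.Injective (bhom α β b) := by
    intro b
    cases b
    · exact hα
    · exact hβ
  refine ⟨Monoid.PushoutI (bhom α β), inferInstance, Monoid.PushoutI.of (φ := bhom α β) false,
    Monoid.PushoutI.of (φ := bhom α β) true, Monoid.PushoutI.of_injective hφ false,
    Monoid.PushoutI.of_injective hφ true, fun h => ?_⟩
  have h1 := Monoid.PushoutI.of_apply_eq_base (bhom α β) false h
  have h2 := Monoid.PushoutI.of_apply_eq_base (bhom α β) true h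
  exact h1.trans h2.symm

/-- the Freiheitssatz, with abelian groups of coefficients -/
theorem frei_hom {A B C G₁ G₂ G₃ : Type} [Group A] [Group B] [Group C] [Group G₁] [Group G₂]
    [Group G₃] (hA : ∀ x y : A, x * y = y * x) (hB : ∀ x y : B, x * y = y * x)
    (hC : ∀ x y : C, x * y = y * x) (f : A →* G₁) (g : B →* G₂) (h : C →* G₃)
    (hf : Function.Injective f) (hg : Function.Injective g) (hh : Function.Injective h)
    (w : Coprod A (Coprod B C)) (h1 : fst w ≠ 1) (h2 : fst (snd w) ≠ 1) (h3 : snd (snd w) ≠ 1) :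
    ∃ (P : Type) (_ : Group P) (Θ : Coprod G₁ (Coprod G₂ G₃) →* P),
      Θ (map f (map g h) w) = 1 ∧ Function.Injective (Θ.comp inl) ∧
      Function.Injective (Θ.comp (inr.comp inl)) ∧ Function.Injective (Θ.comp (inr.comp inr)) := by
  let N : Subgroup (Coprod A (Coprod B C)) := Subgroup.normalClosure {w}
  let π : Coprod A (Coprod B C) →* Coprod A (Coprod B C) ⧸ N := QuotientGroup.mk' N
  obtain ⟨e1, e2, e3⟩ := abelian_embeds hA hB hC w h1 h2 h3
  have i1 : Function.Injective (π.comp inl) := by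
    rw [injective_iff_map_eq_one]
    exact fun a ha => e1 a ((QuotientGroup.eq_one_iff _).1 ha)
  have i2 : Function.Injective (π.comp (inr.comp inl)) := by
    rw [injective_iff_map_eq_one]
    exact fun a ha => e2 a ((QuotientGroup.eq_one_iff _).1 ha)
  have i3 : Function.Injective (π.comp (inr.comp inr)) := by
    rw [injective_iff_map_eq_one]
    exact fun a ha => e3 a ((QuotientGroup.eq_one_iff _).1 ha)
  obtain ⟨P₁, gP₁, q₁, j₁, hq₁, hj₁, c₁⟩ := amalg (π.comp inl) f i1 hf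
  obtain ⟨P₂, gP₂, q₂, j₂, hq₂, hj₂, c₂⟩ :=
    amalg (q₁.comp (π.comp (inr.comp inl))) g (hq₁.comp i2) hg
  obtain ⟨P₃, gP₃, q₃, j₃, hq₃, hj₃, c₃⟩ :=
    amalg (q₂.comp (q₁.comp (π.comp (inr.comp inr)))) h (hq₂.comp (hq₁.comp i3)) hh
  let Θ : Coprod G₁ (Coprod G₂ G₃) →* P₃ :=
    lift (q₃.comp (q₂.comp j₁)) (lift (q₃.comp j₂) j₃)
  have hΘ : Θ.comp (map f (map g h)) = (q₃.comp (q₂.comp q₁)).comp π := by
    refine Monoid.Coprod.hom_ext ?_ (Monoid.Coprod.hom_ext ?_ ?_)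
    · ext a
      have := c₁ a
      simp only [MonoidHom.comp_apply] at this
      simp [Θ, this]
    · ext b
      have := c₂ b
      simp only [MonoidHom.comp_apply] at this
      simp [Θ, this]
    · ext c
      have := c₃ c
      simp only [MonoidHom.comp_apply] at this
      simp [Θ, this]
  refine ⟨P₃, gP₃, Θ, ?_, ?_, ?_, ?_⟩
  · have h4 := DFunLike.congr_fun hΘ w
    have h5 : π w = 1 := (QuotientGroup.eq_one_iff _).2 (Subgroup.subset_normalClosure rfl)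
    rw [MonoidHom.comp_apply, MonoidHom.comp_apply, h5, map_one] at h4
    exact h4
  · have : Θ.comp inl = q₃.comp (q₂.comp j₁) := by ext a; simp [Θ]
    rw [this]
    exact hq₃.comp (hq₂.comp hj₁)
  · have : Θ.comp (inr.comp inl) = q₃.comp j₂ := by ext a; simp [Θ]
    rw [this]
    exact hq₃.comp hj₂
  · have : Θ.comp (inr.comp inr) = j₃ := by ext a; simp [Θ]
    rw [this]
    exact hj₃

/-- the subgroup generated by three subgroups of the factors -/
def gen3 {G₁ G₂ G₃ : Type} [Group G₁] [Group G₂] [Group G₃] (H₁ : Subgroup G₁) (H₂ : Subgroup G₂)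
    (H₃ : Subgroup G₃) : Subgroup (Coprod G₁ (Coprod G₂ G₃)) :=
  H₁.map inl ⊔ (H₂.map (inr.comp inl) ⊔ H₃.map (inr.comp inr))

theorem exists_lift_of_mem {G₁ G₂ G₃ : Type} [Group G₁] [Group G₂] [Group G₃] (H₁ : Subgroup G₁)
    (H₂ : Subgroup G₂) (H₃ : Subgroup G₃) (w : Coprod G₁ (Coprod G₂ G₃))
    (hw : w ∈ gen3 H₁ H₂ H₃) :
    ∃ v : Coprod H₁ (Coprod H₂ H₃), map H₁.subtype (map H₂.subtype H₃.subtype) v = w := by
  have h : gen3 H₁ H₂ H₃ ≤ (map H₁.subtype (map H₂.subtype H₃.subtype)).range := by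
    refine sup_le ?_ (sup_le ?_ ?_)
    · rintro _ ⟨a, ha, rfl⟩
      exact ⟨inl ⟨a, ha⟩, by simp⟩
    · rintro _ ⟨a, ha, rfl⟩
      exact ⟨inr (inl ⟨a, ha⟩), by simp⟩
    · rintro _ ⟨a, ha, rfl⟩
      exact ⟨inr (inr ⟨a, ha⟩), by simp⟩
  exact h hw

theorem frei {G₁ G₂ G₃ : Type} [Group G₁] [Group G₂] [Group G₃] (H₁ : Subgroup G₁)
    (H₂ : Subgroup G₂) (H₃ : Subgroup G₃) (c₁ : ∀ x ∈ H₁, ∀ y ∈ H₁, x * y = y * x)
    (c₂ : ∀ x ∈ H₂, ∀ y ∈ H₂, x * y = y * x) (c₃ : ∀ x ∈ H₃, ∀ y ∈ H₃, x * y = y * x)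
    (w : Coprod G₁ (Coprod G₂ G₃)) (hw : w ∈ gen3 H₁ H₂ H₃)
    (h1 : fst w ≠ 1) (h2 : fst (snd w) ≠ 1) (h3 : snd (snd w) ≠ 1) :
    ∃ (P : Type) (_ : Group P) (Θ : Coprod G₁ (Coprod G₂ G₃) →* P),
      Θ w = 1 ∧ Function.Injective (Θ.comp inl) ∧
      Function.Injective (Θ.comp (inr.comp inl)) ∧ Function.Injective (Θ.comp (inr.comp inr)) := by
  obtain ⟨v, hv⟩ := exists_lift_of_mem H₁ H₂ H₃ w hw
  have k1 : H₁.subtype (fst v) = fst w := by
    rw [← hv]
    have : H₁.subtype.comp fst = fst.comp (map H₁.subtype (map H₂.subtype H₃.subtype)) := by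
      refine Monoid.Coprod.hom_ext ?_ (Monoid.Coprod.hom_ext ?_ ?_) <;> ext a <;> simp
    exact DFunLike.congr_fun this v
  have k2 : H₂.subtype (fst (snd v)) = fst (snd w) := by
    rw [← hv]
    have : H₂.subtype.comp (fst.comp snd) =
        (fst.comp snd).comp (map H₁.subtype (map H₂.subtype H₃.subtype)) := by
      refine Monoid.Coprod.hom_ext ?_ (Monoid.Coprod.hom_ext ?_ ?_) <;> ext a <;> simp
    exact DFunLike.congr_fun this v
  have k3 : H₃.subtype (snd (snd v)) = snd (snd w) := by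
    rw [← hv]
    have : H₃.subtype.comp (snd.comp snd) =
        (snd.comp snd).comp (map H₁.subtype (map H₂.subtype H₃.subtype)) := by
      refine Monoid.Coprod.hom_ext ?_ (Monoid.Coprod.hom_ext ?_ ?_) <;> ext a <;> simp
    exact DFunLike.congr_fun this v
  have := frei_hom (fun x y => Subtype.ext (c₁ x.1 x.2 y.1 y.2))
    (fun x y => Subtype.ext (c₂ x.1 x.2 y.1 y.2)) (fun x y => Subtype.ext (c₃ x.1 x.2 y.1 y.2))
    H₁.subtype H₂.subtype H₃.subtype H₁.subtype_injective H₂.subtype_injective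
    H₃.subtype_injective v
    (fun h => h1 (by rw [← k1, h, map_one])) (fun h => h2 (by rw [← k2, h, map_one]))
    (fun h => h3 (by rw [← k3, h, map_one]))
  rwa [hv] at this

/-- the factors embed in the quotient by the normal closure of `w` -/
theorem frei_quot {G₁ G₂ G₃ : Type} [Group G₁] [Group G₂] [Group G₃] (H₁ : Subgroup G₁)
    (H₂ : Subgroup G₂) (H₃ : Subgroup G₃) (c₁ : ∀ x ∈ H₁, ∀ y ∈ H₁, x * y = y * x)
    (c₂ : ∀ x ∈ H₂, ∀ y ∈ H₂, x * y = y * x) (c₃ : ∀ x ∈ H₃, ∀ y ∈ H₃, x * y = y * x)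
    (w : Coprod G₁ (Coprod G₂ G₃)) (hw : w ∈ gen3 H₁ H₂ H₃)
    (h1 : fst w ≠ 1) (h2 : fst (snd w) ≠ 1) (h3 : snd (snd w) ≠ 1) :
    (∀ g : G₁, inl g ∈ Subgroup.normalClosure ({w} : Set (Coprod G₁ (Coprod G₂ G₃))) → g = 1) ∧
    (∀ g : G₂, inr (inl g) ∈ Subgroup.normalClosure ({w} : Set (Coprod G₁ (Coprod G₂ G₃))) →
      g = 1) ∧
    (∀ g : G₃, inr (inr g) ∈ Subgroup.normalClosure ({w} : Set (Coprod G₁ (Coprod G₂ G₃))) →
      g = 1) := by
  obtain ⟨P, _, Θ, hΘ, i1, i2, i3⟩ := frei H₁ H₂ H₃ c₁ c₂ c₃ w hw h1 h2 h3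
  have hker : ∀ g ∈ Subgroup.normalClosure ({w} : Set (Coprod G₁ (Coprod G₂ G₃))), Θ g = 1 := by
    intro g hg
    have : Subgroup.normalClosure ({w} : Set (Coprod G₁ (Coprod G₂ G₃))) ≤ Θ.ker :=
      Subgroup.normalClosure_le_normal (by
        intro x hx
        rw [Set.mem_singleton_iff] at hx
        rw [hx]
        exact hΘ)
    exact this hg
  refine ⟨fun g hg => i1 ?_, fun g hg => i2 ?_, fun g hg => i3 ?_⟩
  · rw [map_one]; exact hker _ hg
  · rw [map_one]; exact hker _ hg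
  · rw [map_one]; exact hker _ hg

/-- coefficients which commute modulo normal subgroups: the normal closure meets the factors in
these normal subgroups -/
theorem frei_mod {G₁ G₂ G₃ : Type} [Group G₁] [Group G₂] [Group G₃] (H₁ N₁ : Subgroup G₁)
    (H₂ N₂ : Subgroup G₂) (H₃ N₃ : Subgroup G₃) [N₁.Normal] [N₂.Normal] [N₃.Normal]
    (c₁ : ∀ x ∈ H₁, ∀ y ∈ H₁, x * y * x⁻¹ * y⁻¹ ∈ N₁)
    (c₂ : ∀ x ∈ H₂, ∀ y ∈ H₂, x * y * x⁻¹ * y⁻¹ ∈ N₂)
    (c₃ : ∀ x ∈ H₃, ∀ y ∈ H₃, x * y * x⁻¹ * y⁻¹ ∈ N₃)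
    (w : Coprod G₁ (Coprod G₂ G₃)) (hw : w ∈ gen3 H₁ H₂ H₃)
    (h1 : fst w ∉ N₁) (h2 : fst (snd w) ∉ N₂) (h3 : snd (snd w) ∉ N₃) :
    (∀ g : G₁, inl g ∈ Subgroup.normalClosure ({w} : Set (Coprod G₁ (Coprod G₂ G₃))) → g ∈ N₁) ∧
    (∀ g : G₂, inr (inl g) ∈ Subgroup.normalClosure ({w} : Set (Coprod G₁ (Coprod G₂ G₃))) →
      g ∈ N₂) ∧
    (∀ g : G₃, inr (inr g) ∈ Subgroup.normalClosure ({w} : Set (Coprod G₁ (Coprod G₂ G₃))) →
      g ∈ N₃) := by
  let q : Coprod G₁ (Coprod G₂ G₃) →* Coprod (G₁ ⧸ N₁) (Coprod (G₂ ⧸ N₂) (G₃ ⧸ N₃)) :=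
    map (QuotientGroup.mk' N₁) (map (QuotientGroup.mk' N₂) (QuotientGroup.mk' N₃))
  have hq : ∀ g ∈ Subgroup.normalClosure ({w} : Set (Coprod G₁ (Coprod G₂ G₃))),
      q g ∈ Subgroup.normalClosure
      ({q w} : Set (Coprod (G₁ ⧸ N₁) (Coprod (G₂ ⧸ N₂) (G₃ ⧸ N₃)))) := by
    have h : Subgroup.normalClosure ({w} : Set (Coprod G₁ (Coprod G₂ G₃))) ≤
        (Subgroup.normalClosure
          ({q w} : Set (Coprod (G₁ ⧸ N₁) (Coprod (G₂ ⧸ N₂) (G₃ ⧸ N₃))))).comap q := by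
      refine Subgroup.normalClosure_le_normal ?_
      intro x hx
      rw [Set.mem_singleton_iff] at hx
      rw [hx]
      exact Subgroup.subset_normalClosure rfl
    exact fun g hg => h hg
  have hcomm : ∀ {G : Type} [Group G] (H N : Subgroup G) [N.Normal]
      (_ : ∀ x ∈ H, ∀ y ∈ H, x * y * x⁻¹ * y⁻¹ ∈ N),
      ∀ x ∈ H.map (QuotientGroup.mk' N), ∀ y ∈ H.map (QuotientGroup.mk' N), x * y = y * x := by
    rintro G _ H N _ hHN _ ⟨x, hx, rfl⟩ _ ⟨y, hy, rfl⟩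
    have h5 : QuotientGroup.mk' N (x * y * x⁻¹ * y⁻¹) = 1 :=
      (QuotientGroup.eq_one_iff _).2 (hHN x hx y hy)
    rw [map_mul, map_mul, map_mul, map_inv, map_inv] at h5
    rw [← mul_inv_eq_one, mul_inv_rev, ← mul_assoc]
    exact h5
  have hqw : q w ∈ gen3 (H₁.map (QuotientGroup.mk' N₁)) (H₂.map (QuotientGroup.mk' N₂))
      (H₃.map (QuotientGroup.mk' N₃)) := by
    have h : gen3 H₁ H₂ H₃ ≤ (gen3 (H₁.map (QuotientGroup.mk' N₁))
        (H₂.map (QuotientGroup.mk' N₂)) (H₃.map (QuotientGroup.mk' N₃))).comap q := by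
      refine sup_le ?_ (sup_le ?_ ?_)
      · rintro _ ⟨a, ha, rfl⟩
        refine Subgroup.mem_sup_left ⟨QuotientGroup.mk' N₁ a, ⟨a, ha, rfl⟩, ?_⟩
        simp [q]
      · rintro _ ⟨a, ha, rfl⟩
        refine Subgroup.mem_sup_right (Subgroup.mem_sup_left
          ⟨QuotientGroup.mk' N₂ a, ⟨a, ha, rfl⟩, ?_⟩)
        simp [q]
      · rintro _ ⟨a, ha, rfl⟩
        refine Subgroup.mem_sup_right (Subgroup.mem_sup_right
          ⟨QuotientGroup.mk' N₃ a, ⟨a, ha, rfl⟩, ?_⟩)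
        simp [q]
    exact h hw
  have e1 : fst (q w) = QuotientGroup.mk' N₁ (fst w) := by
    have : fst.comp q = (QuotientGroup.mk' N₁).comp fst := by
      refine Monoid.Coprod.hom_ext ?_ (Monoid.Coprod.hom_ext ?_ ?_) <;> ext a <;> simp [q]
    exact DFunLike.congr_fun this w
  have e2 : fst (snd (q w)) = QuotientGroup.mk' N₂ (fst (snd w)) := by
    have : (fst.comp snd).comp q = (QuotientGroup.mk' N₂).comp (fst.comp snd) := by
      refine Monoid.Coprod.hom_ext ?_ (Monoid.Coprod.hom_ext ?_ ?_) <;> ext a <;> simp [q]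
    exact DFunLike.congr_fun this w
  have e3 : snd (snd (q w)) = QuotientGroup.mk' N₃ (snd (snd w)) := by
    have : (snd.comp snd).comp q = (QuotientGroup.mk' N₃).comp (snd.comp snd) := by
      refine Monoid.Coprod.hom_ext ?_ (Monoid.Coprod.hom_ext ?_ ?_) <;> ext a <;> simp [q]
    exact DFunLike.congr_fun this w
  obtain ⟨k1, k2, k3⟩ := frei_quot _ _ _ (hcomm H₁ N₁ c₁) (hcomm H₂ N₂ c₂) (hcomm H₃ N₃ c₃)
    (q w) hqw (fun h => h1 ((QuotientGroup.eq_one_iff _).1 (e1.symm.trans h)))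
    (fun h => h2 ((QuotientGroup.eq_one_iff _).1 (e2.symm.trans h)))
    (fun h => h3 ((QuotientGroup.eq_one_iff _).1 (e3.symm.trans h)))
  refine ⟨fun g hg => ?_, fun g hg => ?_, fun g hg => ?_⟩
  · have h6 := hq _ hg
    simp only [q, Monoid.Coprod.map_apply_inl] at h6
    exact (QuotientGroup.eq_one_iff g).1 (k1 _ h6)
  · have h6 := hq _ hg
    simp only [q, Monoid.Coprod.map_apply_inr, Monoid.Coprod.map_apply_inl] at h6
    exact (QuotientGroup.eq_one_iff g).1 (k2 _ h6)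
  · have h6 := hq _ hg
    simp only [q, Monoid.Coprod.map_apply_inr] at h6
    exact (QuotientGroup.eq_one_iff g).1 (k3 _ h6)

/-- the weight of a free product of three groups: relators with coefficients which commute modulo
proper normal subgroups -/
theorem weight {G₁ G₂ G₃ : Type} [Group G₁] [Group G₂] [Group G₃] (H₁ N₁ : Subgroup G₁)
    (H₂ N₂ : Subgroup G₂) (H₃ N₃ : Subgroup G₃) [N₁.Normal] [N₂.Normal] [N₃.Normal]
    (c₁ : ∀ x ∈ H₁, ∀ y ∈ H₁, x * y * x⁻¹ * y⁻¹ ∈ N₁)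
    (c₂ : ∀ x ∈ H₂, ∀ y ∈ H₂, x * y * x⁻¹ * y⁻¹ ∈ N₂)
    (c₃ : ∀ x ∈ H₃, ∀ y ∈ H₃, x * y * x⁻¹ * y⁻¹ ∈ N₃)
    (p₁ : N₁ ≠ ⊤) (p₂ : N₂ ≠ ⊤) (p₃ : N₃ ≠ ⊤)
    (w : Coprod G₁ (Coprod G₂ G₃)) (hw : w ∈ gen3 H₁ H₂ H₃) :
    Subgroup.normalClosure ({w} : Set (Coprod G₁ (Coprod G₂ G₃))) ≠ ⊤ := by
  intro htop
  have hmem : ∀ g, g ∈ Subgroup.normalClosure ({w} : Set (Coprod G₁ (Coprod G₂ G₃))) := by
    intro g
    rw [htop]
    exact Subgroup.mem_top g
  have hker : ∀ {K : Type} [Group K] (f : Coprod G₁ (Coprod G₂ G₃) →* K),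
      f w = 1 → ∀ g, f g = 1 := by
    intro K _ f hf g
    have : Subgroup.normalClosure ({w} : Set (Coprod G₁ (Coprod G₂ G₃))) ≤ f.ker :=
      Subgroup.normalClosure_le_normal (by
        intro x hx
        rw [Set.mem_singleton_iff] at hx
        rw [hx]
        exact hf)
    exact this (hmem g)
  obtain ⟨g₁, hg₁⟩ : ∃ g, g ∉ N₁ := by
    by_contra hcon
    push Not at hcon
    exact p₁ (Subgroup.eq_top_iff' N₁ |>.2 hcon)
  obtain ⟨g₂, hg₂⟩ : ∃ g, g ∉ N₂ := by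
    by_contra hcon
    push Not at hcon
    exact p₂ (Subgroup.eq_top_iff' N₂ |>.2 hcon)
  obtain ⟨g₃, hg₃⟩ : ∃ g, g ∉ N₃ := by
    by_contra hcon
    push Not at hcon
    exact p₃ (Subgroup.eq_top_iff' N₃ |>.2 hcon)
  by_cases h1 : fst w ∈ N₁
  · have := hker ((QuotientGroup.mk' N₁).comp fst) ((QuotientGroup.eq_one_iff _).2 h1) (inl g₁)
    rw [MonoidHom.comp_apply, Monoid.Coprod.fst_apply_inl] at this
    exact hg₁ ((QuotientGroup.eq_one_iff g₁).1 this)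
  by_cases h2 : fst (snd w) ∈ N₂
  · have := hker ((QuotientGroup.mk' N₂).comp (fst.comp snd)) ((QuotientGroup.eq_one_iff _).2 h2)
      (inr (inl g₂))
    rw [MonoidHom.comp_apply, MonoidHom.comp_apply, Monoid.Coprod.snd_apply_inr,
      Monoid.Coprod.fst_apply_inl] at this
    exact hg₂ ((QuotientGroup.eq_one_iff g₂).1 this)
  by_cases h3 : snd (snd w) ∈ N₃
  · have := hker ((QuotientGroup.mk' N₃).comp (snd.comp snd)) ((QuotientGroup.eq_one_iff _).2 h3)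
      (inr (inr g₃))
    rw [MonoidHom.comp_apply, MonoidHom.comp_apply, Monoid.Coprod.snd_apply_inr,
      Monoid.Coprod.snd_apply_inr] at this
    exact hg₃ ((QuotientGroup.eq_one_iff g₃).1 this)
  obtain ⟨k1, -, -⟩ := frei_mod H₁ N₁ H₂ N₂ H₃ N₃ c₁ c₂ c₃ w hw h1 h2 h3
  exact hg₁ (k1 _ (hmem _))

end Pool.Agent.Lib.HowF
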