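import Mathlib

/-!
# Invariance of the degree of a map of the sphere, by the divergence theorem

`deg_inv`: a smooth family of unit vectors on `[0,π] × [0,π] × [0,2π]` (parameter, colatitude, longitude).
-/

set_option autoImplicit false

open scoped ContDiff
open MeasureTheory

namespace Pool.Agent.Lib.HowF

/-- the parameter space -/
abbrev E3 : Type := ℝ × ℝ × ℝ

/-- directional derivative -/
noncomputable def pd (v : E3) (f : E3 → ℝ) : E3 → ℝ := fun p => fderiv ℝ f p v

theorem pd_contDiff (v : E3) {f : E3 → ℝ} (hf : ContDiff ℝ ∞ f) : ContDiff ℝ ∞ (pd v f) := by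
  unfold pd
  exact (hf.fderiv_right (m := ∞) (by simp)).clm_apply contDiff_const

theorem pd_line (v : E3) {f : E3 → ℝ} (hf : ContDiff ℝ ∞ f) (p : E3) :
    HasDerivAt (fun r : ℝ => f (p + r • v)) (pd v f p) 0 := by
  have h1 : HasFDerivAt f (fderiv ℝ f p) (p + (0 : ℝ) • v) := by
    rw [zero_smul, add_zero]
    exact (hf.differentiable (by simp) p).hasFDerivAt
  have h2 : HasDerivAt (fun r : ℝ => p + r • v) v 0 := by
    have := ((hasDerivAt_id (0 : ℝ)).smul_const v).const_add p
    simpa using this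
  exact h1.comp_hasDerivAt (0 : ℝ) h2

theorem pd_comm (v w : E3) {f : E3 → ℝ} (hf : ContDiff ℝ ∞ f) (p : E3) :
    pd v (pd w f) p = pd w (pd v f) p := by
  have hd : Differentiable ℝ (fderiv ℝ f) :=
    (hf.fderiv_right (m := ∞) (by simp)).differentiable (by simp)
  have h : ∀ v w : E3, pd v (pd w f) p = fderiv ℝ (fderiv ℝ f) p v w := by
    intro v w
    unfold pd
    rw [fderiv_clm_apply (hd p) (differentiableAt_const w)]
    simp
  rw [h, h]
  have h2 : minSmoothness ℝ 2 ≤ ∞ := by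
    rw [minSmoothness_of_isRCLikeNormedField]
    exact WithTop.coe_le_coe.2 le_top
  exact (hf.contDiffAt.isSymmSndFDerivAt h2) v w

/-- the determinant -/
def det3 (a b c : Fin 3 → ℝ) : ℝ :=
  a 0 * (b 1 * c 2 - b 2 * c 1) - a 1 * (b 0 * c 2 - b 2 * c 0) + a 2 * (b 0 * c 1 - b 1 * c 0)

/-- the density -/
noncomputable def DD (v w : E3) (f : Fin 3 → E3 → ℝ) : E3 → ℝ := fun p =>
  det3 (fun i => f i p) (fun i => pd v (f i) p) (fun i => pd w (f i) p)

theorem DD_contDiff (v w : E3) {f : Fin 3 → E3 → ℝ} (hf : ∀ i, ContDiff ℝ ∞ (f i)) :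
    ContDiff ℝ ∞ (DD v w f) := by
  have h := fun i => hf i
  have hv := fun i => pd_contDiff v (hf i)
  have hw := fun i => pd_contDiff w (hf i)
  unfold DD det3
  exact (((h 0).mul (((hv 1).mul (hw 2)).sub ((hv 2).mul (hw 1)))).sub
    ((h 1).mul (((hv 0).mul (hw 2)).sub ((hv 2).mul (hw 0))))).add
    ((h 2).mul (((hv 0).mul (hw 1)).sub ((hv 1).mul (hw 0))))

theorem pd_DD (x v w : E3) {f : Fin 3 → E3 → ℝ} (hf : ∀ i, ContDiff ℝ ∞ (f i)) (p : E3) :
    pd x (DD v w f) p =
      det3 (fun i => pd x (f i) p) (fun i => pd v (f i) p) (fun i => pd w (f i) p) +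
      det3 (fun i => f i p) (fun i => pd x (pd v (f i)) p) (fun i => pd w (f i) p) +
      det3 (fun i => f i p) (fun i => pd v (f i) p) (fun i => pd x (pd w (f i)) p) := by
  have h := fun i => pd_line x (hf i) p
  have hv := fun i => pd_line x (pd_contDiff v (hf i)) p
  have hw := fun i => pd_line x (pd_contDiff w (hf i)) p
  have h1 := pd_line x (DD_contDiff v w hf) p
  have h2 := (((h 0).mul (((hv 1).mul (hw 2)).sub ((hv 2).mul (hw 1)))).sub
    ((h 1).mul (((hv 0).mul (hw 2)).sub ((hv 2).mul (hw 0))))).add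
    ((h 2).mul (((hv 0).mul (hw 1)).sub ((hv 1).mul (hw 0))))
  have h3 := h1.unique h2
  rw [h3]
  simp only [zero_smul, add_zero, det3, Pi.mul_apply, Pi.sub_apply]
  ring

theorem det3_zero (a b c f : Fin 3 → ℝ) (hf : f 0 ^ 2 + f 1 ^ 2 + f 2 ^ 2 = 1)
    (ha : f 0 * a 0 + f 1 * a 1 + f 2 * a 2 = 0) (hb : f 0 * b 0 + f 1 * b 1 + f 2 * b 2 = 0)
    (hc : f 0 * c 0 + f 1 * c 1 + f 2 * c 2 = 0) : det3 a b c = 0 := by
  have h0 : f 0 * det3 a b c = 0 := by
    unfold det3
    linear_combination (b 1 * c 2 - b 2 * c 1) * ha + (c 1 * a 2 - c 2 * a 1) * hb +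
      (a 1 * b 2 - a 2 * b 1) * hc
  have h1 : f 1 * det3 a b c = 0 := by
    unfold det3
    linear_combination (b 2 * c 0 - b 0 * c 2) * ha + (c 2 * a 0 - c 0 * a 2) * hb +
      (a 2 * b 0 - a 0 * b 2) * hc
  have h2 : f 2 * det3 a b c = 0 := by
    unfold det3
    linear_combination (b 0 * c 1 - b 1 * c 0) * ha + (c 0 * a 1 - c 1 * a 0) * hb +
      (a 0 * b 1 - a 1 * b 0) * hc
  linear_combination (-det3 a b c) * hf + f 0 * h0 + f 1 * h1 + f 2 * h2

theorem orth (v : E3) {f : Fin 3 → E3 → ℝ} (hf : ∀ i, ContDiff ℝ ∞ (f i))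
    (h1 : ∀ p, f 0 p ^ 2 + f 1 p ^ 2 + f 2 p ^ 2 = 1) (p : E3) :
    f 0 p * pd v (f 0) p + f 1 p * pd v (f 1) p + f 2 p * pd v (f 2) p = 0 := by
  have h := fun i => pd_line v (hf i) p
  have h2 := (((h 0).mul (h 0)).add ((h 1).mul (h 1))).add ((h 2).mul (h 2))
  have h3 : HasDerivAt (fun _ : ℝ => (1 : ℝ)) 0 0 := hasDerivAt_const _ _
  have h4 : (fun _ : ℝ => (1 : ℝ)) = ((fun r : ℝ => f 0 (p + r • v)) * (fun r : ℝ => f 0 (p + r • v)) +
      (fun r : ℝ => f 1 (p + r • v)) * (fun r : ℝ => f 1 (p + r • v)) +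
      (fun r : ℝ => f 2 (p + r • v)) * (fun r : ℝ => f 2 (p + r • v))) := by
    funext r
    have := h1 (p + r • v)
    simp only [Pi.add_apply, Pi.mul_apply]
    linarith
  rw [h4] at h3
  have h5 := h2.unique h3
  simp only [zero_smul, add_zero] at h5
  linarith

/-- the divergence identity -/
theorem div_id {f : Fin 3 → E3 → ℝ} (hf : ∀ i, ContDiff ℝ ∞ (f i))
    (h1 : ∀ p, f 0 p ^ 2 + f 1 p ^ 2 + f 2 p ^ 2 = 1) (s t w : E3) (p : E3) :
    pd s (DD t w f) p = pd t (DD s w f) p + pd w (DD t s f) p := by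
  rw [pd_DD s t w hf, pd_DD t s w hf, pd_DD w t s hf]
  have hst : ∀ i, pd t (pd s (f i)) p = pd s (pd t (f i)) p := fun i => pd_comm t s (hf i) p
  have hwt : ∀ i, pd w (pd t (f i)) p = pd t (pd w (f i)) p := fun i => pd_comm w t (hf i) p
  have hws : ∀ i, pd w (pd s (f i)) p = pd s (pd w (f i)) p := fun i => pd_comm w s (hf i) p
  simp only [hst, hwt, hws]
  have hz := det3_zero (fun i => pd s (f i) p) (fun i => pd t (f i) p) (fun i => pd w (f i) p)
    (fun i => f i p) (h1 p) (orth s hf h1 p) (orth t hf h1 p) (orth w hf h1 p)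
  unfold det3 at hz ⊢
  linear_combination 3 * hz

/-! ### integrals -/

theorem swap2 (F : ℝ → ℝ → ℝ) (hF : Continuous (Function.uncurry F)) (a b c d : ℝ) :
    ∫ x in a..b, ∫ y in c..d, F x y = ∫ y in c..d, ∫ x in a..b, F x y := by
  apply intervalIntegral_intervalIntegral_swap
  refine (hF.continuousOn.integrableOn_compact (isCompact_uIcc.prod isCompact_uIcc)).mono_set
    (Set.prod_mono Set.uIoc_subset_uIcc Set.uIoc_subset_uIcc)

theorem ftc_s {F : E3 → ℝ} (hF : ContDiff ℝ ∞ F) (a b t w : ℝ) :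
    ∫ s in a..b, pd (1, 0, 0) F (s, t, w) = F (b, t, w) - F (a, t, w) := by
  refine intervalIntegral.integral_eq_sub_of_hasDerivAt (f := fun s => F (s, t, w))
    (fun s _ => ?_) ?_
  · have h := (hF.differentiable (by simp) (s, t, w)).hasFDerivAt
    have h2 : HasDerivAt (fun s : ℝ => ((s, t, w) : E3)) (1, 0, 0) s :=
      (hasDerivAt_id s).prodMk ((hasDerivAt_const s t).prodMk (hasDerivAt_const s w))
    exact h.comp_hasDerivAt s h2
  · refine Continuous.intervalIntegrable ?_ _ _
    exact (pd_contDiff _ hF).continuous.comp (by fun_prop)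

theorem ftc_t {F : E3 → ℝ} (hF : ContDiff ℝ ∞ F) (a b s w : ℝ) :
    ∫ t in a..b, pd (0, 1, 0) F (s, t, w) = F (s, b, w) - F (s, a, w) := by
  refine intervalIntegral.integral_eq_sub_of_hasDerivAt (f := fun t => F (s, t, w))
    (fun t _ => ?_) ?_
  · have h := (hF.differentiable (by simp) (s, t, w)).hasFDerivAt
    have h2 : HasDerivAt (fun t : ℝ => ((s, t, w) : E3)) (0, 1, 0) t :=
      (hasDerivAt_const t s).prodMk ((hasDerivAt_id t).prodMk (hasDerivAt_const t w))
    exact h.comp_hasDerivAt t h2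
  · refine Continuous.intervalIntegrable ?_ _ _
    exact (pd_contDiff _ hF).continuous.comp (by fun_prop)

theorem ftc_w {F : E3 → ℝ} (hF : ContDiff ℝ ∞ F) (a b s t : ℝ) :
    ∫ w in a..b, pd (0, 0, 1) F (s, t, w) = F (s, t, b) - F (s, t, a) := by
  refine intervalIntegral.integral_eq_sub_of_hasDerivAt (f := fun w => F (s, t, w))
    (fun w _ => ?_) ?_
  · have h := (hF.differentiable (by simp) (s, t, w)).hasFDerivAt
    have h2 : HasDerivAt (fun w : ℝ => ((s, t, w) : E3)) (0, 0, 1) w :=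
      (hasDerivAt_const w s).prodMk ((hasDerivAt_const w t).prodMk (hasDerivAt_id w))
    exact h.comp_hasDerivAt w h2
  · refine Continuous.intervalIntegrable ?_ _ _
    exact (pd_contDiff _ hF).continuous.comp (by fun_prop)

/-- invariance of the degree -/
theorem deg_inv (f : Fin 3 → E3 → ℝ) (hf : ∀ i, ContDiff ℝ ∞ (f i))
    (h1 : ∀ p, f 0 p ^ 2 + f 1 p ^ 2 + f 2 p ^ 2 = 1)
    (h0 : ∀ i s w, f i (s, 0, w) = f i (s, 0, 0))
    (hpi : ∀ i s w, f i (s, Real.pi, w) = f i (s, Real.pi, 0))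
    (hper : ∀ i s t w, f i (s, t, w + 2 * Real.pi) = f i (s, t, w))
    (he : ∀ s, (s = 0 ∨ s = Real.pi) → ∀ t w, pd (0, 0, 1) (f 0) (s, t, w) = - f 1 (s, t, w) ∧
      pd (0, 0, 1) (f 1) (s, t, w) = f 0 (s, t, w) ∧ pd (0, 0, 1) (f 2) (s, t, w) = 0) :
    f 2 (0, 0, 0) - f 2 (0, Real.pi, 0) = f 2 (Real.pi, 0, 0) - f 2 (Real.pi, Real.pi, 0) := by
  set es : E3 := (1, 0, 0) with hes
  set et : E3 := (0, 1, 0) with het
  set ew : E3 := (0, 0, 1) with hew
  have cD := DD_contDiff et ew hf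
  have cA := DD_contDiff es ew hf
  have cB := DD_contDiff et es hf
  -- the boundary terms
  have hA : ∀ s w t, (t = 0 ∨ t = Real.pi) → DD es ew f (s, t, w) = 0 := by
    intro s w t ht
    have hz : ∀ i, pd ew (f i) (s, t, w) = 0 := by
      intro i
      have h := pd_line ew (hf i) (s, t, w)
      have h2 : (fun r : ℝ => f i ((s, t, w) + r • ew)) = fun _ => f i (s, t, 0) := by
        funext r
        have h3 : ((s, t, w) : E3) + r • ew = (s, t, w + r) := by simp [hew]
        rw [h3]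
        rcases ht with rfl | rfl
        · exact h0 i s _
        · exact hpi i s _
      rw [h2] at h
      exact h.unique (hasDerivAt_const _ _)
    unfold DD det3
    simp only [hz]
    ring
  have hB : ∀ s t, DD et es f (s, t, 2 * Real.pi) = DD et es f (s, t, 0) := by
    intro s t
    have hz : ∀ i v, pd v (f i) (s, t, 2 * Real.pi) = pd v (f i) (s, t, 0) := by
      intro i v
      have h := pd_line v (hf i) (s, t, 2 * Real.pi)
      have h' := pd_line v (hf i) (s, t, 0)
      have h2 : (fun r : ℝ => f i ((s, t, 2 * Real.pi) + r • v)) =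
          fun r : ℝ => f i ((s, t, 0) + r • v) := by
        funext r
        obtain ⟨a, b, c⟩ := v
        have h3 : ((s, t, 2 * Real.pi) : E3) + r • (a, b, c) =
            (s + r * a, t + r * b, (0 + r * c) + 2 * Real.pi) := by
          simp [add_comm]
        have h4 : ((s, t, 0) : E3) + r • (a, b, c) = (s + r * a, t + r * b, 0 + r * c) := by
          simp
        rw [h3, h4, hper]
      rw [h2] at h
      exact h.unique h'
    have hv : ∀ i, f i (s, t, 2 * Real.pi) = f i (s, t, 0) := by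
      intro i
      have := hper i s t 0
      rwa [zero_add] at this
    unfold DD
    simp only [hz, hv]
  -- the triple integrals
  have i1 : ∫ s in (0 : ℝ)..Real.pi, ∫ t in (0 : ℝ)..Real.pi, ∫ w in (0 : ℝ)..(2 * Real.pi),
      pd ew (DD et es f) (s, t, w) = 0 := by
    have h : ∀ s t, ∫ w in (0 : ℝ)..(2 * Real.pi), pd ew (DD et es f) (s, t, w) = 0 := by
      intro s t
      rw [ftc_w cB, hB, sub_self]
    simp only [h, intervalIntegral.integral_zero]
  have i2 : ∫ s in (0 : ℝ)..Real.pi, ∫ t in (0 : ℝ)..Real.pi, ∫ w in (0 : ℝ)..(2 * Real.pi),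
      pd et (DD es ew f) (s, t, w) = 0 := by
    have h : ∀ s, ∫ t in (0 : ℝ)..Real.pi, ∫ w in (0 : ℝ)..(2 * Real.pi),
        pd et (DD es ew f) (s, t, w) = 0 := by
      intro s
      rw [swap2 (fun t w => pd et (DD es ew f) (s, t, w))
        ((pd_contDiff et cA).continuous.comp (by fun_prop))]
      have h' : ∀ w, ∫ t in (0 : ℝ)..Real.pi, pd et (DD es ew f) (s, t, w) = 0 := by
        intro w
        rw [ftc_t cA, hA s w _ (Or.inr rfl), hA s w _ (Or.inl rfl), sub_self]
      simp only [h', intervalIntegral.integral_zero]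
    simp only [h, intervalIntegral.integral_zero]
  have c3 := (pd_contDiff es cD).continuous
  have i3 : ∫ s in (0 : ℝ)..Real.pi, ∫ t in (0 : ℝ)..Real.pi, ∫ w in (0 : ℝ)..(2 * Real.pi),
      pd es (DD et ew f) (s, t, w) =
      ∫ t in (0 : ℝ)..Real.pi, ∫ w in (0 : ℝ)..(2 * Real.pi),
        (DD et ew f (Real.pi, t, w) - DD et ew f (0, t, w)) := by
    rw [swap2 (fun s t => ∫ w in (0 : ℝ)..(2 * Real.pi), pd es (DD et ew f) (s, t, w))]
    · congr 1
      funext t
      rw [swap2 (fun s w => pd es (DD et ew f) (s, t, w)) (c3.comp (by fun_prop))]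
      congr 1
      funext w
      rw [ftc_s cD]
    · refine intervalIntegral.continuous_parametric_intervalIntegral_of_continuous'
        (f := fun (x : ℝ × ℝ) w => pd es (DD et ew f) (x.1, x.2, w)) ?_ _ _
      exact c3.comp (by fun_prop)
  have i4 : ∫ s in (0 : ℝ)..Real.pi, ∫ t in (0 : ℝ)..Real.pi, ∫ w in (0 : ℝ)..(2 * Real.pi),
      pd es (DD et ew f) (s, t, w) = 0 := by
    have hfun : ∀ s t w, pd es (DD et ew f) (s, t, w) =
        pd et (DD es ew f) (s, t, w) + pd ew (DD et es f) (s, t, w) := fun s t w =>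
      div_id hf h1 es et ew (s, t, w)
    simp only [hfun]
    have cA' := (pd_contDiff et cA).continuous
    have cB' := (pd_contDiff ew cB).continuous
    have e1 : ∀ s t, ∫ w in (0 : ℝ)..(2 * Real.pi),
        (pd et (DD es ew f) (s, t, w) + pd ew (DD et es f) (s, t, w)) =
        (∫ w in (0 : ℝ)..(2 * Real.pi), pd et (DD es ew f) (s, t, w)) +
        ∫ w in (0 : ℝ)..(2 * Real.pi), pd ew (DD et es f) (s, t, w) := by
      intro s t
      exact intervalIntegral.integral_add
        ((cA'.comp (f := fun w : ℝ => ((s, t, w) : E3)) (by fun_prop)).intervalIntegrable _ _)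
        ((cB'.comp (f := fun w : ℝ => ((s, t, w) : E3)) (by fun_prop)).intervalIntegrable _ _)
    have gA : Continuous fun x : ℝ × ℝ => ∫ w in (0 : ℝ)..(2 * Real.pi),
        pd et (DD es ew f) (x.1, x.2, w) := by
      refine intervalIntegral.continuous_parametric_intervalIntegral_of_continuous'
        (f := fun (x : ℝ × ℝ) w => pd et (DD es ew f) (x.1, x.2, w)) ?_ _ _
      exact cA'.comp (by fun_prop)
    have gB : Continuous fun x : ℝ × ℝ => ∫ w in (0 : ℝ)..(2 * Real.pi),
        pd ew (DD et es f) (x.1, x.2, w) := by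
      refine intervalIntegral.continuous_parametric_intervalIntegral_of_continuous'
        (f := fun (x : ℝ × ℝ) w => pd ew (DD et es f) (x.1, x.2, w)) ?_ _ _
      exact cB'.comp (by fun_prop)
    have e2 : ∀ s, ∫ t in (0 : ℝ)..Real.pi, ((∫ w in (0 : ℝ)..(2 * Real.pi),
          pd et (DD es ew f) (s, t, w)) +
        ∫ w in (0 : ℝ)..(2 * Real.pi), pd ew (DD et es f) (s, t, w)) =
        (∫ t in (0 : ℝ)..Real.pi, ∫ w in (0 : ℝ)..(2 * Real.pi), pd et (DD es ew f) (s, t, w)) +
        ∫ t in (0 : ℝ)..Real.pi, ∫ w in (0 : ℝ)..(2 * Real.pi),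
          pd ew (DD et es f) (s, t, w) := by
      intro s
      exact intervalIntegral.integral_add
        ((gA.comp (f := fun t : ℝ => (s, t)) (by fun_prop)).intervalIntegrable _ _)
        ((gB.comp (f := fun t : ℝ => (s, t)) (by fun_prop)).intervalIntegrable _ _)
    simp only [e1, e2]
    have kA : Continuous fun s : ℝ => ∫ t in (0 : ℝ)..Real.pi, ∫ w in (0 : ℝ)..(2 * Real.pi),
        pd et (DD es ew f) (s, t, w) :=
      intervalIntegral.continuous_parametric_intervalIntegral_of_continuous'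
        (f := fun (s : ℝ) t => ∫ w in (0 : ℝ)..(2 * Real.pi), pd et (DD es ew f) (s, t, w)) gA _ _
    have kB : Continuous fun s : ℝ => ∫ t in (0 : ℝ)..Real.pi, ∫ w in (0 : ℝ)..(2 * Real.pi),
        pd ew (DD et es f) (s, t, w) :=
      intervalIntegral.continuous_parametric_intervalIntegral_of_continuous'
        (f := fun (s : ℝ) t => ∫ w in (0 : ℝ)..(2 * Real.pi), pd ew (DD et es f) (s, t, w)) gB _ _
    rw [intervalIntegral.integral_add (kA.intervalIntegrable _ _) (kB.intervalIntegrable _ _),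
      i1, i2, add_zero]
  -- the two ends
  have hend : ∀ s, (s = 0 ∨ s = Real.pi) → ∫ t in (0 : ℝ)..Real.pi, ∫ w in (0 : ℝ)..(2 * Real.pi),
      DD et ew f (s, t, w) = 2 * Real.pi * (f 2 (s, 0, 0) - f 2 (s, Real.pi, 0)) := by
    intro s hs
    have h : ∀ t w, DD et ew f (s, t, w) = - pd et (f 2) (s, t, w) := by
      intro t w
      obtain ⟨a0, a1, a2⟩ := he s hs t w
      have ho := orth et hf h1 (s, t, w)
      have hn := h1 (s, t, w)
      unfold DD det3
      simp only [a0, a1, a2]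
      linear_combination f 2 (s, t, w) * ho - pd et (f 2) (s, t, w) * hn
    simp only [h]
    rw [swap2 (fun t w => - pd et (f 2) (s, t, w))
      (((pd_contDiff et (hf 2)).continuous.comp (by fun_prop)).neg)]
    have h' : ∀ w, ∫ t in (0 : ℝ)..Real.pi, - pd et (f 2) (s, t, w) =
        f 2 (s, 0, 0) - f 2 (s, Real.pi, 0) := by
      intro w
      rw [intervalIntegral.integral_neg, ftc_t (hf 2), h0 2 s w, hpi 2 s w]
      ring
    simp only [h']
    rw [intervalIntegral.integral_const, smul_eq_mul, sub_zero]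
  have cDc := cD.continuous
  rw [i4] at i3
  have hsplit : ∫ t in (0 : ℝ)..Real.pi, ∫ w in (0 : ℝ)..(2 * Real.pi),
        (DD et ew f (Real.pi, t, w) - DD et ew f (0, t, w)) =
      (∫ t in (0 : ℝ)..Real.pi, ∫ w in (0 : ℝ)..(2 * Real.pi), DD et ew f (Real.pi, t, w)) -
      ∫ t in (0 : ℝ)..Real.pi, ∫ w in (0 : ℝ)..(2 * Real.pi), DD et ew f (0, t, w) := by
    have e1 : ∀ t, ∫ w in (0 : ℝ)..(2 * Real.pi),
        (DD et ew f (Real.pi, t, w) - DD et ew f (0, t, w)) =
        (∫ w in (0 : ℝ)..(2 * Real.pi), DD et ew f (Real.pi, t, w)) -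
        ∫ w in (0 : ℝ)..(2 * Real.pi), DD et ew f (0, t, w) := by
      intro t
      exact intervalIntegral.integral_sub
        ((cDc.comp (f := fun w : ℝ => ((Real.pi, t, w) : E3)) (by fun_prop)).intervalIntegrable _ _)
        ((cDc.comp (f := fun w : ℝ => ((0, t, w) : E3)) (by fun_prop)).intervalIntegrable _ _)
    simp only [e1]
    have g : ∀ s : ℝ, Continuous fun t : ℝ => ∫ w in (0 : ℝ)..(2 * Real.pi),
        DD et ew f (s, t, w) := by
      intro s
      refine intervalIntegral.continuous_parametric_intervalIntegral_of_continuous'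
        (f := fun (t : ℝ) w => DD et ew f (s, t, w)) ?_ _ _
      exact cDc.comp (by fun_prop)
    exact intervalIntegral.integral_sub ((g _).intervalIntegrable _ _)
      ((g _).intervalIntegrable _ _)
  rw [hsplit, hend _ (Or.inr rfl), hend _ (Or.inl rfl)] at i3
  have hp : (0 : ℝ) < 2 * Real.pi := by positivity
  have i5 : 2 * Real.pi * ((f 2 (0, 0, 0) - f 2 (0, Real.pi, 0)) -
      (f 2 (Real.pi, 0, 0) - f 2 (Real.pi, Real.pi, 0))) = 0 := by linarith
  rcases mul_eq_zero.1 i5 with h | h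
  · exact absurd h hp.ne'
  · linarith

end Pool.Agent.Lib.HowF
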