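import Mathlib

/-!
# Characters of abelian groups with prescribed values

Used for the Freiheitssatz for products of three groups (`MP_be5808_al`).
-/

set_option autoImplicit false

namespace Pool.Agent.Lib.HowF

/-- a hom on the cyclic subgroup of `w` extends to a character with value `j / m` at `w` -/
theorem char_exists {A : Type} [AddCommGroup A] (w : A) (m : ℕ) (hm : m ≠ 0)
    (hw : ∀ k : ℤ, k • w = 0 → (m : ℤ) ∣ k) (j : ℤ) :
    ∃ χ : A →+ AddCircle (1 : ℝ), χ w = (((j : ℝ) / m : ℝ) : AddCircle (1 : ℝ)) := by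
  let f : ℤ →+ A := zmultiplesHom A w
  let g : ℤ →+ AddCircle (1 : ℝ) := zmultiplesHom _ (((j : ℝ) / m : ℝ) : AddCircle (1 : ℝ))
  have hfg : f.ker ≤ g.ker := by
    intro k hk
    rw [AddMonoidHom.mem_ker] at hk ⊢
    obtain ⟨c, rfl⟩ := hw k hk
    show ((m : ℤ) * c) • (((j : ℝ) / m : ℝ) : AddCircle (1 : ℝ)) = 0
    rw [← AddCircle.coe_zsmul, AddCircle.coe_eq_zero_iff]
    refine ⟨c * j, ?_⟩
    have hm' : (m : ℝ) ≠ 0 := Nat.cast_ne_zero.2 hm
    simp only [zsmul_eq_mul]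
    push_cast
    field_simp
  have hsurj : Function.Surjective f.rangeRestrict := f.rangeRestrict_surjective
  have hk' : f.rangeRestrict.ker ≤ g.ker := by
    rw [AddMonoidHom.ker_rangeRestrict]; exact hfg
  let χ₀ : f.range →+ AddCircle (1 : ℝ) := f.rangeRestrict.liftOfSurjective hsurj ⟨g, hk'⟩
  have h₀ : ∀ k : ℤ, χ₀ (f.rangeRestrict k) = g k := fun k =>
    AddMonoidHom.liftOfRightInverse_comp_apply _ _ _ ⟨g, hk'⟩ k
  obtain ⟨χ, hχ⟩ := (Module.Baer.of_divisible (AddCircle (1 : ℝ))).extension_property_addMonoidHom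
    f.range.subtype f.range.subtype_injective χ₀
  refine ⟨χ, ?_⟩
  have h1 := DFunLike.congr_fun hχ (f.rangeRestrict 1)
  rw [h₀] at h1
  have h2 : f.range.subtype (f.rangeRestrict 1) = w := by
    show (1 : ℤ) • w = w
    rw [one_zsmul]
  have h3 : g 1 = (((j : ℝ) / m : ℝ) : AddCircle (1 : ℝ)) := by
    show (1 : ℤ) • (((j : ℝ) / m : ℝ) : AddCircle (1 : ℝ)) = _
    rw [one_zsmul]
  rw [AddMonoidHom.comp_apply, h2, h3] at h1
  exact h1

/-- a modulus for an element: the order if it is finite, an arbitrary number `≥ N` otherwise -/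
theorem exists_modulus {A : Type} [AddCommGroup A] (w : A) (hw : w ≠ 0) (N : ℕ) (hN : 2 ≤ N) :
    ∃ m : ℕ, 2 ≤ m ∧ (∀ k : ℤ, k • w = 0 → (m : ℤ) ∣ k) ∧ (addOrderOf w = m ∨ (N = m ∧ addOrderOf w = 0)) := by
  by_cases h : addOrderOf w = 0
  · refine ⟨N, hN, fun k hk => ?_, Or.inr ⟨rfl, h⟩⟩
    have h1 : (addOrderOf w : ℤ) ∣ k := addOrderOf_dvd_iff_zsmul_eq_zero.2 hk
    rw [h, Nat.cast_zero, zero_dvd_iff] at h1
    rw [h1]
    exact dvd_zero _
  · refine ⟨addOrderOf w, ?_, fun k hk => addOrderOf_dvd_iff_zsmul_eq_zero.2 hk, Or.inl rfl⟩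
    have h1 : addOrderOf w ≠ 1 := fun h1 => hw (AddMonoid.addOrderOf_eq_one_iff.1 h1)
    omega

/-- a character with value in `[1/3, 1/2]` at a non-trivial element -/
theorem char_third {A : Type} [AddCommGroup A] (w : A) (hw : w ≠ 0) :
    ∃ (χ : A →+ AddCircle (1 : ℝ)) (x : ℝ), χ w = (x : AddCircle (1 : ℝ)) ∧ 1 / 3 ≤ x ∧ x ≤ 1 / 2 := by
  obtain ⟨m, hm, hk, -⟩ := exists_modulus w hw 2 le_rfl
  obtain ⟨q, hq⟩ : ∃ q : ℕ, q = m / 2 := ⟨_, rfl⟩
  obtain ⟨χ, hχ⟩ := char_exists w m (by omega) hk (q : ℤ)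
  rw [Int.cast_natCast] at hχ
  refine ⟨χ, _, hχ, ?_, ?_⟩
  · have h1 : m ≤ 3 * q := by omega
    have h2 : (m : ℝ) ≤ 3 * (q : ℝ) := by exact_mod_cast h1
    have h3 : (0 : ℝ) < m := by exact_mod_cast (by omega : 0 < m)
    rw [div_le_div_iff₀ (by norm_num) h3]
    linarith
  · have h1 : 2 * q ≤ m := by omega
    have h2 : 2 * (q : ℝ) ≤ m := by exact_mod_cast h1
    have h3 : (0 : ℝ) < m := by exact_mod_cast (by omega : 0 < m)
    rw [div_le_div_iff₀ h3 (by norm_num)]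
    linarith

/-- an integer `j` with `j / m` in `[1/6, 1/2]` and `m ∤ j t` -/
theorem exists_num (m : ℕ) (hm : 2 ≤ m) (t : ℤ) (ht : ¬ (m : ℤ) ∣ t) :
    ∃ j : ℤ, (m : ℤ) ≤ 6 * j ∧ 2 * j ≤ m ∧ ¬ (m : ℤ) ∣ j * t := by
  by_cases h6 : m ≤ 6
  · exact ⟨1, by omega, by omega, by rwa [one_mul]⟩
  · by_cases h : (m : ℤ) ∣ ((m / 2 : ℕ) : ℤ) * t
    · refine ⟨((m / 2 : ℕ) : ℤ) - 1, by omega, by omega, fun h' => ht ?_⟩
      have h3 := dvd_sub h h'
      have h4 : ((m / 2 : ℕ) : ℤ) * t - (((m / 2 : ℕ) : ℤ) - 1) * t = t := by ring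
      rwa [h4] at h3
    · exact ⟨((m / 2 : ℕ) : ℤ), by omega, by omega, h⟩

theorem coe_div_eq_zero {m : ℕ} (hm : m ≠ 0) (k : ℤ)
    (h : (((k : ℝ) / m : ℝ) : AddCircle (1 : ℝ)) = 0) : (m : ℤ) ∣ k := by
  rw [AddCircle.coe_eq_zero_iff] at h
  obtain ⟨n, hn⟩ := h
  have hm' : (m : ℝ) ≠ 0 := Nat.cast_ne_zero.2 hm
  refine ⟨n, ?_⟩
  rw [zsmul_eq_mul, mul_one, eq_div_iff hm'] at hn
  have : ((k : ℤ) : ℝ) = ((m * n : ℤ) : ℝ) := by
    push_cast
    rw [← hn]
    ring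
  exact_mod_cast this

/-- a character with value in `[1/6, 1/2]` at `w` which does not vanish at `h` -/
theorem char_sixth {A : Type} [AddCommGroup A] (w h : A) (hw : w ≠ 0) (hh : h ≠ 0) :
    ∃ (χ : A →+ AddCircle (1 : ℝ)) (x : ℝ), χ w = (x : AddCircle (1 : ℝ)) ∧
      1 / 6 ≤ x ∧ x ≤ 1 / 2 ∧ χ h ≠ 0 := by
  by_cases hz : h ∈ AddSubgroup.zmultiples w
  · obtain ⟨t, rfl⟩ := AddSubgroup.mem_zmultiples_iff.1 hz
    obtain ⟨m, hm, hk, ho⟩ := exists_modulus w hw (t.natAbs + 2) (by omega)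
    have ht : ¬ (m : ℤ) ∣ t := by
      rcases ho with ho | ⟨ho, -⟩
      · intro hd
        rw [← ho] at hd
        exact hh (addOrderOf_dvd_iff_zsmul_eq_zero.1 hd)
      · intro hd
        have h1 : t = 0 := Int.eq_zero_of_abs_lt_dvd hd (by rw [Int.abs_eq_natAbs]; omega)
        rw [h1, zero_zsmul] at hh
        exact hh rfl
    obtain ⟨j, hj1, hj2, hj3⟩ := exists_num m hm t ht
    obtain ⟨χ, hχ⟩ := char_exists w m (by omega) hk j
    have h3 : (0 : ℝ) < m := by exact_mod_cast (by omega : 0 < m)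
    refine ⟨χ, _, hχ, ?_, ?_, ?_⟩
    · have h2 : (m : ℝ) ≤ 6 * (j : ℝ) := by exact_mod_cast hj1
      rw [div_le_div_iff₀ (by norm_num) h3]
      linarith
    · have h2 : 2 * (j : ℝ) ≤ m := by exact_mod_cast hj2
      rw [div_le_div_iff₀ h3 (by norm_num)]
      linarith
    · intro h0
      rw [map_zsmul, hχ, ← AddCircle.coe_zsmul] at h0
      apply hj3
      apply coe_div_eq_zero (by omega : m ≠ 0)
      rw [← h0]
      congr 1
      rw [zsmul_eq_mul]
      push_cast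
      ring
  · obtain ⟨χ, x, hχ, hx1, hx2⟩ := char_third w hw
    by_cases h0 : χ h = 0
    · let π := QuotientAddGroup.mk' (AddSubgroup.zmultiples w)
      have hπ : π h ≠ 0 := fun h1 => hz ((QuotientAddGroup.eq_zero_iff h).1 h1)
      obtain ⟨ψ, y, hψ, hy1, hy2⟩ := char_third (π h) hπ
      refine ⟨χ + ψ.comp π, x, ?_, by linarith, hx2, ?_⟩
      · have h1 : π w = 0 := (QuotientAddGroup.eq_zero_iff w).2 (AddSubgroup.mem_zmultiples w)
        rw [AddMonoidHom.add_apply, AddMonoidHom.comp_apply, h1, map_zero, add_zero, hχ]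
      · rw [AddMonoidHom.add_apply, AddMonoidHom.comp_apply, h0, zero_add, hψ]
        intro h2
        rw [AddCircle.coe_eq_zero_iff] at h2
        obtain ⟨n, hn⟩ := h2
        rw [zsmul_eq_mul, mul_one] at hn
        rw [← hn] at hy1 hy2
        have h3 : (0 : ℝ) < n := by linarith
        have h4 : (n : ℝ) < 1 := by linarith
        have h5 : 0 < n := by exact_mod_cast h3
        have h6 : n < 1 := by exact_mod_cast h4
        omega
    · exact ⟨χ, x, hχ, by linarith, hx2, h0⟩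

end Pool.Agent.Lib.HowF
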