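import Mathlib

/-!
# One-parameter groups of unit quaternions, words in three axes
-/

set_option autoImplicit false

open scoped Quaternion
open Monoid (Coprod)

namespace Pool.Agent.Lib.HowF

/-- `cos π t + sin π t · u` -/
noncomputable def uq (u : ℍ[ℝ]) (t : ℝ) : ℍ[ℝ] :=
  ((Real.cos (Real.pi * t) : ℝ) : ℍ[ℝ]) + ((Real.sin (Real.pi * t) : ℝ) : ℍ[ℝ]) * u

theorem uq_zero (u : ℍ[ℝ]) : uq u 0 = 1 := by
  simp [uq]

theorem uq_add (u : ℍ[ℝ]) (hu : u * u = -1) (s t : ℝ) : uq u (s + t) = uq u s * uq u t := by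
  unfold uq
  rw [mul_add, Real.cos_add, Real.sin_add]
  push_cast
  generalize Real.cos (Real.pi * s) = a
  generalize Real.sin (Real.pi * s) = b
  generalize Real.cos (Real.pi * t) = c
  generalize Real.sin (Real.pi * t) = d
  have h1 : u * (c : ℍ[ℝ]) = c * u := (Quaternion.coe_commutes c u).symm
  have h2 : u * (d : ℍ[ℝ]) = d * u := (Quaternion.coe_commutes d u).symm
  have e : ((a : ℍ[ℝ]) + b * u) * (c + d * u) =
      a * c + a * (d * u) + b * (u * c) + b * (u * d) * u := by noncomm_ring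
  rw [e, h1, h2]
  have e2 : (b : ℍ[ℝ]) * (d * u) * u = b * d * (u * u) := by noncomm_ring
  rw [e2, hu]
  noncomm_ring

/-- the unit imaginary quaternions -/
def Sph : Type := {u : ℍ[ℝ] // u * u = -1}

/-- the one-parameter group of units with axis `u` -/
noncomputable def uu (u : Sph) (t : ℝ) : ℍ[ℝ]ˣ where
  val := uq u.1 t
  inv := uq u.1 (-t)
  val_inv := by rw [← uq_add _ u.2, add_neg_cancel, uq_zero]
  inv_val := by rw [← uq_add _ u.2, neg_add_cancel, uq_zero]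

theorem uu_val (u : Sph) (t : ℝ) : ((uu u t : ℍ[ℝ]ˣ) : ℍ[ℝ]) = uq u.1 t := rfl

theorem uu_add (u : Sph) (s t : ℝ) : uu u (s + t) = uu u s * uu u t :=
  Units.ext (uq_add u.1 u.2 s t)

/-- conjugation by a unit is trivial if the unit is real -/
theorem conj_eq_one (q : ℍ[ℝ]ˣ) (h : (q : ℍ[ℝ]).im = 0) : MulAut.conj q = 1 := by
  have h1 : (q : ℍ[ℝ]) = (((q : ℍ[ℝ]).re : ℝ) : ℍ[ℝ]) := by
    have := Quaternion.re_add_im (q : ℍ[ℝ])
    rw [h, add_zero] at this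
    exact this.symm
  ext1 x
  rw [MulAut.conj_apply, MulAut.one_apply, mul_inv_eq_iff_eq_mul]
  refine Units.ext ?_
  rw [Units.val_mul, Units.val_mul, h1]
  exact Quaternion.coe_commutes _ _

theorem im_eq_zero_iff (q : ℍ[ℝ]) : q.im = 0 ↔ q.imI = 0 ∧ q.imJ = 0 ∧ q.imK = 0 := by
  constructor
  · intro h
    refine ⟨?_, ?_, ?_⟩
    · rw [← Quaternion.imI_im, h]; rfl
    · rw [← Quaternion.imJ_im, h]; rfl
    · rw [← Quaternion.imK_im, h]; rfl
  · rintro ⟨h1, h2, h3⟩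
    ext <;> simp [h1, h2, h3]

theorem uu_conj_int (u : Sph) (n : ℤ) : MulAut.conj (uu u n) = 1 := by
  refine conj_eq_one _ ?_
  rw [uu_val]
  unfold uq
  rw [mul_comm Real.pi, Real.sin_int_mul_pi]
  simp

/-- a quaternion with the given components -/
def mkq (a b c d : ℝ) : ℍ[ℝ] := ⟨a, b, c, d⟩

@[simp] theorem mkq_re (a b c d : ℝ) : (mkq a b c d).re = a := rfl
@[simp] theorem mkq_imI (a b c d : ℝ) : (mkq a b c d).imI = b := rfl
@[simp] theorem mkq_imJ (a b c d : ℝ) : (mkq a b c d).imJ = c := rfl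
@[simp] theorem mkq_imK (a b c d : ℝ) : (mkq a b c d).imK = d := rfl

theorem mkq_sq (b c d : ℝ) (h : b ^ 2 + c ^ 2 + d ^ 2 = 1) :
    mkq 0 b c d * mkq 0 b c d = -1 := by
  ext
  · rw [Quaternion.re_mul, Quaternion.re_neg, Quaternion.re_one]
    simp only [mkq_re, mkq_imI, mkq_imJ, mkq_imK]
    linarith
  · rw [Quaternion.imI_mul, Quaternion.imI_neg, Quaternion.imI_one]
    simp only [mkq_re, mkq_imI, mkq_imJ, mkq_imK]
    ring
  · rw [Quaternion.imJ_mul, Quaternion.imJ_neg, Quaternion.imJ_one]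
    simp only [mkq_re, mkq_imI, mkq_imJ, mkq_imK]
    ring
  · rw [Quaternion.imK_mul, Quaternion.imK_neg, Quaternion.imK_one]
    simp only [mkq_re, mkq_imI, mkq_imJ, mkq_imK]
    ring

/-- the point with coordinates `b, c, d` of the sphere -/
def sphMk (b c d : ℝ) (h : b ^ 2 + c ^ 2 + d ^ 2 = 1) : Sph := ⟨mkq 0 b c d, mkq_sq b c d h⟩

theorem uu_half (u : Sph) : ((uu u (1 / 2) : ℍ[ℝ]ˣ) : ℍ[ℝ]) = u.1 := by
  rw [uu_val]
  unfold uq
  have h : Real.pi * (1 / 2) = Real.pi / 2 := by ring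
  rw [h, Real.cos_pi_div_two, Real.sin_pi_div_two]
  simp

theorem im_eq_zero_of_conj (q : ℍ[ℝ]ˣ) (h : MulAut.conj q = 1) : (q : ℍ[ℝ]).im = 0 := by
  have hc : ∀ x : ℍ[ℝ]ˣ, (q : ℍ[ℝ]) * x = x * q := by
    intro x
    have h1 := DFunLike.congr_fun h x
    rw [MulAut.conj_apply, MulAut.one_apply, mul_inv_eq_iff_eq_mul] at h1
    have h2 := congrArg Units.val h1
    rwa [Units.val_mul, Units.val_mul] at h2
  have hI := hc (uu (sphMk 1 0 0 (by norm_num)) (1 / 2))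
  have hJ := hc (uu (sphMk 0 1 0 (by norm_num)) (1 / 2))
  rw [uu_half] at hI hJ
  change (q : ℍ[ℝ]) * mkq 0 1 0 0 = mkq 0 1 0 0 * q at hI
  change (q : ℍ[ℝ]) * mkq 0 0 1 0 = mkq 0 0 1 0 * q at hJ
  have hI3 : ((q : ℍ[ℝ]) * mkq 0 1 0 0).imK = (mkq 0 1 0 0 * (q : ℍ[ℝ])).imK := by rw [hI]
  have hI2 : ((q : ℍ[ℝ]) * mkq 0 1 0 0).imJ = (mkq 0 1 0 0 * (q : ℍ[ℝ])).imJ := by rw [hI]
  have hJ3 : ((q : ℍ[ℝ]) * mkq 0 0 1 0).imK = (mkq 0 0 1 0 * (q : ℍ[ℝ])).imK := by rw [hJ]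
  rw [Quaternion.imK_mul, Quaternion.imK_mul] at hI3 hJ3
  rw [Quaternion.imJ_mul, Quaternion.imJ_mul] at hI2
  simp only [mkq_re, mkq_imI, mkq_imJ, mkq_imK] at hI3 hI2 hJ3
  rw [im_eq_zero_iff]
  refine ⟨?_, ?_, ?_⟩ <;> linarith

theorem sph_im_ne (u : Sph) : u.1.im ≠ 0 := by
  intro h
  have h1 : u.1 = ((u.1.re : ℝ) : ℍ[ℝ]) := by
    have := Quaternion.re_add_im u.1
    rw [h, add_zero] at this
    exact this.symm
  have h2 := u.2
  rw [h1, ← Quaternion.coe_mul] at h2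
  have h3 := congrArg QuaternionAlgebra.re h2
  simp at h3
  nlinarith [mul_self_nonneg u.1.re]

/-- the homomorphism on the circle with axis `u` -/
noncomputable def ec (u : Sph) : AddCircle (1 : ℝ) →+ Additive (MulAut ℍ[ℝ]ˣ) :=
  QuotientAddGroup.lift (AddSubgroup.zmultiples (1 : ℝ))
    { toFun := fun t => Additive.ofMul (MulAut.conj (uu u t))
      map_zero' := by
        have h : uu u 0 = 1 := Units.ext (uq_zero _)
        rw [h, map_one]
        rfl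
      map_add' := fun s t => by rw [uu_add, map_mul]; rfl } (by
    intro t ht
    obtain ⟨n, rfl⟩ := AddSubgroup.mem_zmultiples_iff.1 ht
    rw [zsmul_eq_mul, mul_one]
    exact congrArg Additive.ofMul (uu_conj_int u n))

theorem ec_coe (u : Sph) (t : ℝ) :
    ec u (t : AddCircle (1 : ℝ)) = Additive.ofMul (MulAut.conj (uu u t)) := rfl

theorem ec_ne_zero (u : Sph) (x : AddCircle (1 : ℝ)) (hx : x ≠ 0) : ec u x ≠ 0 := by
  obtain ⟨t, rfl⟩ := QuotientAddGroup.mk_surjective x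
  intro h
  have h1 : MulAut.conj (uu u t) = 1 := congrArg Additive.toMul h
  have h2 := im_eq_zero_of_conj _ h1
  rw [uu_val, im_eq_zero_iff] at h2
  obtain ⟨hI, hJ, hK⟩ := h2
  unfold uq at hI hJ hK
  have hs : Real.sin (Real.pi * t) = 0 := by
    by_contra hne
    apply sph_im_ne u
    rw [im_eq_zero_iff]
    simp at hI hJ hK
    exact ⟨hI.resolve_left hne, hJ.resolve_left hne, hK.resolve_left hne⟩
  rw [Real.sin_eq_zero_iff] at hs
  obtain ⟨n, hn⟩ := hs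
  apply hx
  refine (AddCircle.coe_eq_zero_iff (1 : ℝ)).2 ⟨n, ?_⟩
  rw [zsmul_eq_mul, mul_one]
  have h3 : Real.pi * t = Real.pi * n := by rw [← hn, mul_comm]
  exact (mul_left_cancel₀ Real.pi_ne_zero h3).symm

/-- the product of the letters of a list -/
noncomputable def Wq (u : Fin 3 → ℍ[ℝ]) (L : List (Fin 3 × ℝ)) : ℍ[ℝ] :=
  (L.map fun p => uq (u p.1) p.2).prod

theorem Wq_nil (u : Fin 3 → ℍ[ℝ]) : Wq u [] = 1 := rfl

theorem Wq_cons (u : Fin 3 → ℍ[ℝ]) (p : Fin 3 × ℝ) (L : List (Fin 3 × ℝ)) :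
    Wq u (p :: L) = uq (u p.1) p.2 * Wq u L := by
  simp [Wq]

theorem Wq_append (u : Fin 3 → ℍ[ℝ]) (L M : List (Fin 3 × ℝ)) :
    Wq u (L ++ M) = Wq u L * Wq u M := by
  simp [Wq]

/-- the sum of the exponents with index `i` -/
noncomputable def sm (L : List (Fin 3 × ℝ)) (i : Fin 3) : ℝ :=
  (L.map fun p => if p.1 = i then p.2 else 0).sum

theorem sm_nil (i : Fin 3) : sm [] i = 0 := rfl

theorem sm_cons (p : Fin 3 × ℝ) (L : List (Fin 3 × ℝ)) (i : Fin 3) :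
    sm (p :: L) i = (if p.1 = i then p.2 else 0) + sm L i := by
  simp [sm]

theorem sm_append (L M : List (Fin 3 × ℝ)) (i : Fin 3) :
    sm (L ++ M) i = sm L i + sm M i := by
  simp [sm]

/-- the same product as a unit -/
noncomputable def WU (u : Fin 3 → Sph) (L : List (Fin 3 × ℝ)) : ℍ[ℝ]ˣ :=
  (L.map fun p => uu (u p.1) p.2).prod

theorem WU_append (u : Fin 3 → Sph) (L M : List (Fin 3 × ℝ)) :
    WU u (L ++ M) = WU u L * WU u M := by
  simp [WU]

theorem WU_val (u : Fin 3 → Sph) (L : List (Fin 3 × ℝ)) :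
    ((WU u L : ℍ[ℝ]ˣ) : ℍ[ℝ]) = Wq (fun i => (u i).1) L := by
  induction L with
  | nil => rfl
  | cons p L ih =>
    rw [Wq_cons, ← ih]
    simp [WU, uu_val]

end Pool.Agent.Lib.HowF
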