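import Pool.Agent.Lib.HowF.Quat
import Pool.Agent.Lib.HowF.Calc

/-!
# Words in three axes: if the angles satisfy the triangle inequalities, some choice of the axes makes the word real
-/

set_option autoImplicit false

open scoped Quaternion ContDiff

namespace Pool.Agent.Lib.HowF

/-- the third unit -/
def qK : ℍ[ℝ] := mkq 0 0 0 1

/-- the first axis -/
noncomputable def uax (t w : ℝ) : ℍ[ℝ] :=
  mkq 0 (Real.sin t * Real.cos w) (Real.sin t * Real.sin w) (Real.cos t)

/-- the third axis -/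
noncomputable def xax (s : ℝ) : ℍ[ℝ] := mkq 0 (Real.sin s) 0 (Real.cos s)

/-- the three axes -/
noncomputable def uvec (p : E3) : Fin 3 → ℍ[ℝ] := ![uax p.2.1 p.2.2, qK, xax p.1]

theorem uvec_sq (p : E3) (i : Fin 3) : uvec p i * uvec p i = -1 := by
  fin_cases i
  · refine mkq_sq _ _ _ ?_
    have h1 := Real.sin_sq_add_cos_sq p.2.1
    have h2 := Real.sin_sq_add_cos_sq p.2.2
    linear_combination h1 + Real.sin p.2.1 ^ 2 * h2
  · exact mkq_sq _ _ _ (by norm_num)
  · refine mkq_sq _ _ _ ?_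
    have h1 := Real.sin_sq_add_cos_sq p.1
    linear_combination h1

/-- the word as a function of the parameters -/
noncomputable def GG (L : List (Fin 3 × ℝ)) (p : E3) : ℍ[ℝ] := Wq (uvec p) L

/-! ### smoothness -/

theorem mkq_eq (a b c d : ℝ) : mkq a b c d =
    a • mkq 1 0 0 0 + b • mkq 0 1 0 0 + c • mkq 0 0 1 0 + d • mkq 0 0 0 1 := by
  ext <;> simp

theorem mkq_contDiff {a b c d : E3 → ℝ} (ha : ContDiff ℝ ∞ a) (hb : ContDiff ℝ ∞ b)
    (hc : ContDiff ℝ ∞ c) (hd : ContDiff ℝ ∞ d) :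
    ContDiff ℝ ∞ fun p => mkq (a p) (b p) (c p) (d p) := by
  have h : (fun p => mkq (a p) (b p) (c p) (d p)) = fun p =>
    a p • mkq 1 0 0 0 + b p • mkq 0 1 0 0 + c p • mkq 0 0 1 0 + d p • mkq 0 0 0 1 :=
    funext fun p => mkq_eq _ _ _ _
  rw [h]
  exact (((ha.smul contDiff_const).add (hb.smul contDiff_const)).add
    (hc.smul contDiff_const)).add (hd.smul contDiff_const)

theorem uvec_contDiff (i : Fin 3) : ContDiff ℝ ∞ fun p : E3 => uvec p i := by
  have h1 : ContDiff ℝ ∞ fun p : E3 => p.2.1 := contDiff_fst.comp contDiff_snd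
  have h2 : ContDiff ℝ ∞ fun p : E3 => p.2.2 := contDiff_snd.comp contDiff_snd
  have h0 : ContDiff ℝ ∞ fun p : E3 => p.1 := contDiff_fst
  fin_cases i
  · exact mkq_contDiff contDiff_const (h1.sin.mul h2.cos) (h1.sin.mul h2.sin) h1.cos
  · exact contDiff_const
  · exact mkq_contDiff contDiff_const h0.sin contDiff_const h0.cos

theorem GG_contDiff (L : List (Fin 3 × ℝ)) : ContDiff ℝ ∞ (GG L) := by
  induction L with
  | nil => exact contDiff_const
  | cons q L ih =>
    have h : GG (q :: L) = fun p => uq (uvec p q.1) q.2 * GG L p :=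
      funext fun p => Wq_cons _ _ _
    rw [h]
    refine ContDiff.mul ?_ ih
    unfold uq
    exact contDiff_const.add (contDiff_const.mul (uvec_contDiff q.1))

/-- the components -/
def cmp : Fin 3 → (ℍ[ℝ] →ₗ[ℝ] ℝ) :=
  ![{ toFun := fun q => q.imI, map_add' := fun _ _ => rfl, map_smul' := fun _ _ => rfl },
    { toFun := fun q => q.imJ, map_add' := fun _ _ => rfl, map_smul' := fun _ _ => rfl },
    { toFun := fun q => q.imK, map_add' := fun _ _ => rfl, map_smul' := fun _ _ => rfl }]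

theorem cmp0 (q : ℍ[ℝ]) : cmp 0 q = q.imI := rfl
theorem cmp1 (q : ℍ[ℝ]) : cmp 1 q = q.imJ := rfl
theorem cmp2 (q : ℍ[ℝ]) : cmp 2 q = q.imK := rfl

theorem cmp_contDiff (i : Fin 3) (L : List (Fin 3 × ℝ)) :
    ContDiff ℝ ∞ fun p => cmp i (GG L p) :=
  (cmp i).toContinuousLinearMap.contDiff.comp (GG_contDiff L)

/-- the square of the length of the imaginary part -/
noncomputable def nn (q : ℍ[ℝ]) : ℝ := cmp 0 q ^ 2 + cmp 1 q ^ 2 + cmp 2 q ^ 2

theorem nn_pos {q : ℍ[ℝ]} (h : q.im ≠ 0) : 0 < nn q := by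
  rw [Ne, im_eq_zero_iff] at h
  unfold nn
  rw [cmp0, cmp1, cmp2]
  by_contra hle
  apply h
  have h1 := sq_nonneg q.imI
  have h2 := sq_nonneg q.imJ
  have h3 := sq_nonneg q.imK
  refine ⟨?_, ?_, ?_⟩ <;> apply pow_eq_zero_iff (two_ne_zero) |>.1 <;> linarith

/-- the direction of the imaginary part -/
noncomputable def ff (L : List (Fin 3 × ℝ)) (i : Fin 3) (p : E3) : ℝ :=
  cmp i (GG L p) / Real.sqrt (nn (GG L p))

theorem ff_contDiff (L : List (Fin 3 × ℝ)) (h : ∀ p, (GG L p).im ≠ 0) (i : Fin 3) :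
    ContDiff ℝ ∞ (ff L i) := by
  unfold ff
  have h1 : ContDiff ℝ ∞ fun p => nn (GG L p) := by
    unfold nn
    exact (((cmp_contDiff 0 L).pow 2).add ((cmp_contDiff 1 L).pow 2)).add
      ((cmp_contDiff 2 L).pow 2)
  refine (cmp_contDiff i L).div (h1.sqrt fun p => (nn_pos (h p)).ne') fun p => ?_
  exact (Real.sqrt_pos.2 (nn_pos (h p))).ne'

theorem ff_norm (L : List (Fin 3 × ℝ)) (h : ∀ p, (GG L p).im ≠ 0) (p : E3) :
    ff L 0 p ^ 2 + ff L 1 p ^ 2 + ff L 2 p ^ 2 = 1 := by
  unfold ff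
  have h1 := nn_pos (h p)
  rw [div_pow, div_pow, div_pow, Real.sq_sqrt h1.le, ← add_div, ← add_div]
  exact div_self h1.ne'

/-! ### rotation about the third unit -/

theorem half_comm (q : ℍ[ℝ]) : qK * q - q * qK = mkq 0 (-2 * q.imJ) (2 * q.imI) 0 := by
  unfold qK
  ext
  · rw [Quaternion.re_sub, Quaternion.re_mul, Quaternion.re_mul]
    simp only [mkq_re, mkq_imI, mkq_imJ, mkq_imK]
    ring
  · rw [Quaternion.imI_sub, Quaternion.imI_mul, Quaternion.imI_mul]
    simp only [mkq_re, mkq_imI, mkq_imJ, mkq_imK]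
    ring
  · rw [Quaternion.imJ_sub, Quaternion.imJ_mul, Quaternion.imJ_mul]
    simp only [mkq_re, mkq_imI, mkq_imJ, mkq_imK]
    ring
  · rw [Quaternion.imK_sub, Quaternion.imK_mul, Quaternion.imK_mul]
    simp only [mkq_re, mkq_imI, mkq_imJ, mkq_imK]
    ring

theorem uvec_rot (s : ℝ) (hs : s = 0 ∨ s = Real.pi) (t w : ℝ) (i : Fin 3) :
    HasDerivAt (fun w => uvec (s, t, w) i)
      ((1 / 2 : ℝ) • (qK * uvec (s, t, w) i - uvec (s, t, w) i * qK)) w := by
  have hsin : Real.sin s = 0 := by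
    rcases hs with rfl | rfl
    · exact Real.sin_zero
    · exact Real.sin_pi
  rw [half_comm]
  fin_cases i
  · show HasDerivAt (fun w => uax t w) ((1 / 2 : ℝ) • mkq 0 (-2 * (uax t w).imJ)
      (2 * (uax t w).imI) 0) w
    have h : (fun w => uax t w) = fun w => (0 : ℝ) • mkq 1 0 0 0 +
      (Real.sin t * Real.cos w) • mkq 0 1 0 0 + (Real.sin t * Real.sin w) • mkq 0 0 1 0 +
      Real.cos t • mkq 0 0 0 1 := funext fun w => mkq_eq _ _ _ _
    rw [h]
    have h1 := ((Real.hasDerivAt_cos w).const_mul (Real.sin t)).smul_const (mkq 0 1 0 0)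
    have h2 := ((Real.hasDerivAt_sin w).const_mul (Real.sin t)).smul_const (mkq 0 0 1 0)
    have h3 := ((h1.const_add ((0 : ℝ) • mkq 1 0 0 0)).add h2).add_const
      (Real.cos t • mkq 0 0 0 1)
    refine h3.congr_deriv ?_
    unfold uax
    ext <;> simp
  · show HasDerivAt (fun w => qK) ((1 / 2 : ℝ) • mkq 0 (-2 * qK.imJ) (2 * qK.imI) 0) w
    refine (hasDerivAt_const w qK).congr_deriv ?_
    unfold qK
    ext <;> simp
  · show HasDerivAt (fun w => xax s) ((1 / 2 : ℝ) • mkq 0 (-2 * (xax s).imJ)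
      (2 * (xax s).imI) 0) w
    refine (hasDerivAt_const w (xax s)).congr_deriv ?_
    unfold xax
    rw [hsin]
    ext <;> simp

theorem GG_rot (L : List (Fin 3 × ℝ)) (s : ℝ) (hs : s = 0 ∨ s = Real.pi) (t w : ℝ) :
    HasDerivAt (fun w => GG L (s, t, w))
      ((1 / 2 : ℝ) • (qK * GG L (s, t, w) - GG L (s, t, w) * qK)) w := by
  induction L with
  | nil =>
    refine (hasDerivAt_const w (1 : ℍ[ℝ])).congr_deriv ?_
    show (0 : ℍ[ℝ]) = (1 / 2 : ℝ) • (qK * 1 - 1 * qK)
    rw [mul_one, one_mul, sub_self, smul_zero]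
  | cons q L ih =>
    have h : ∀ p, GG (q :: L) p = uq (uvec p q.1) q.2 * GG L p := fun p => Wq_cons _ _ _
    simp only [h]
    have h1 : HasDerivAt (fun w => uq (uvec (s, t, w) q.1) q.2)
        ((1 / 2 : ℝ) • (qK * uq (uvec (s, t, w) q.1) q.2 - uq (uvec (s, t, w) q.1) q.2 * qK)) w := by
      have h2 := ((uvec_rot s hs t w q.1).const_mul
        ((Real.sin (Real.pi * q.2) : ℝ) : ℍ[ℝ])).const_add
        ((Real.cos (Real.pi * q.2) : ℝ) : ℍ[ℝ])
      refine h2.congr_deriv ?_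
      unfold uq
      generalize Real.cos (Real.pi * q.2) = a
      generalize Real.sin (Real.pi * q.2) = b
      generalize uvec (s, t, w) q.1 = v
      have ha : qK * (a : ℍ[ℝ]) = a * qK := (Quaternion.coe_commutes a qK).symm
      have hb : qK * (b : ℍ[ℝ]) = b * qK := (Quaternion.coe_commutes b qK).symm
      rw [mul_smul_comm]
      congr 1
      rw [mul_add, add_mul, ha, ← mul_assoc, hb]
      noncomm_ring
    refine (h1.mul ih).congr_deriv ?_
    rw [smul_mul_assoc, mul_smul_comm, ← smul_add]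
    congr 1
    noncomm_ring

theorem cmp_hasDerivAt {F : ℝ → ℍ[ℝ]} {F' : ℍ[ℝ]} {w : ℝ} (h : HasDerivAt F F' w) (i : Fin 3) :
    HasDerivAt (fun w => cmp i (F w)) (cmp i F') w :=
  (cmp i).toContinuousLinearMap.hasFDerivAt.comp_hasDerivAt w h

theorem ff_rot (L : List (Fin 3 × ℝ)) (h : ∀ p, (GG L p).im ≠ 0) (s : ℝ)
    (hs : s = 0 ∨ s = Real.pi) (t w : ℝ) :
    pd (0, 0, 1) (ff L 0) (s, t, w) = - ff L 1 (s, t, w) ∧
      pd (0, 0, 1) (ff L 1) (s, t, w) = ff L 0 (s, t, w) ∧
      pd (0, 0, 1) (ff L 2) (s, t, w) = 0 := by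
  have h1 := GG_rot L s hs t w
  rw [half_comm] at h1
  have k0 : HasDerivAt (fun w => cmp 0 (GG L (s, t, w))) (- cmp 1 (GG L (s, t, w))) w := by
    refine (cmp_hasDerivAt h1 0).congr_deriv ?_
    rw [cmp0, cmp1]
    simp
  have k1 : HasDerivAt (fun w => cmp 1 (GG L (s, t, w))) (cmp 0 (GG L (s, t, w))) w := by
    refine (cmp_hasDerivAt h1 1).congr_deriv ?_
    rw [cmp0, cmp1]
    simp
  have k2 : HasDerivAt (fun w => cmp 2 (GG L (s, t, w))) 0 w := by
    refine (cmp_hasDerivAt h1 2).congr_deriv ?_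
    rw [cmp2]
    simp
  have kn : HasDerivAt (fun w => nn (GG L (s, t, w))) 0 w := by
    have := ((k0.pow 2).add (k1.pow 2)).add (k2.pow 2)
    refine this.congr_deriv ?_
    simp
    ring
  have hpos := nn_pos (h (s, t, w))
  have kr : HasDerivAt (fun w => Real.sqrt (nn (GG L (s, t, w)))) 0 w := by
    refine (kn.sqrt hpos.ne').congr_deriv ?_
    simp
  have hr : Real.sqrt (nn (GG L (s, t, w))) ≠ 0 := (Real.sqrt_pos.2 hpos).ne'
  have hline : ∀ i, HasDerivAt (fun w => ff L i (s, t, w)) (pd (0, 0, 1) (ff L i) (s, t, w)) w := by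
    intro i
    have h3 := ((ff_contDiff L h i).differentiable (by simp) (s, t, w)).hasFDerivAt
    have h2 : HasDerivAt (fun w : ℝ => ((s, t, w) : E3)) (0, 0, 1) w :=
      (hasDerivAt_const w s).prodMk ((hasDerivAt_const w t).prodMk (hasDerivAt_id w))
    exact h3.comp_hasDerivAt w h2
  refine ⟨?_, ?_, ?_⟩
  · refine ((hline 0).unique (k0.div kr hr)).trans ?_
    unfold ff
    field_simp
    ring
  · refine ((hline 1).unique (k1.div kr hr)).trans ?_
    unfold ff
    field_simp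
    ring
  · refine ((hline 2).unique (k2.div kr hr)).trans ?_
    simp

/-! ### aligned axes -/

theorem uq_neg (u : ℍ[ℝ]) (t : ℝ) : uq (-u) t = uq u (-t) := by
  unfold uq
  rw [mul_neg, mul_neg, Real.cos_neg, Real.sin_neg]
  push_cast
  noncomm_ring

theorem Wq_aligned (u : Fin 3 → ℍ[ℝ]) (e : Fin 3 → ℝ) (he : ∀ i, e i = 1 ∨ e i = -1)
    (hu : ∀ i, u i = e i • qK) (L : List (Fin 3 × ℝ)) :
    Wq u L = uq qK (e 0 * sm L 0 + e 1 * sm L 1 + e 2 * sm L 2) := by
  have hK : qK * qK = -1 := mkq_sq _ _ _ (by norm_num)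
  induction L with
  | nil => rw [Wq_nil, sm_nil, sm_nil, sm_nil]; simp [uq_zero]
  | cons p L ih =>
    obtain ⟨i, t⟩ := p
    rw [Wq_cons, ih]
    have h1 : uq (u i) t = uq qK (e i * t) := by
      rw [hu i]
      rcases he i with h | h
      · rw [h, one_smul, one_mul]
      · rw [h, neg_one_smul, uq_neg, neg_one_mul]
    show uq (u i) t * _ = _
    rw [h1, ← uq_add _ hK]
    congr 1
    rw [sm_cons, sm_cons, sm_cons]
    fin_cases i
    · simp; ring
    · simp; ring
    · simp; ring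

theorem ff_aligned (L : List (Fin 3 × ℝ)) (p : E3) (X : ℝ) (h : GG L p = uq qK X) :
    ff L 2 p = Real.sin (Real.pi * X) / |Real.sin (Real.pi * X)| := by
  unfold ff nn
  rw [h, cmp0, cmp1, cmp2]
  unfold uq qK
  simp [Real.sqrt_sq_eq_abs]

theorem im_aligned (X : ℝ) (h : Real.sin (Real.pi * X) = 0) : (uq qK X).im = 0 := by
  unfold uq
  rw [h]
  simp

/-- the main topological statement -/
theorem top_main (L : List (Fin 3 × ℝ))
    (h1 : 0 ≤ sm L 0 + sm L 1 - sm L 2) (h1' : sm L 0 + sm L 1 - sm L 2 ≤ 1)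
    (h2 : 0 ≤ sm L 0 - sm L 1 + sm L 2) (h2' : sm L 0 - sm L 1 + sm L 2 ≤ 1)
    (h3 : 0 ≤ -sm L 0 + sm L 1 + sm L 2) (h3' : -sm L 0 + sm L 1 + sm L 2 ≤ 1) :
    ∃ u : Fin 3 → ℍ[ℝ], (∀ i, u i * u i = -1) ∧ (Wq u L).im = 0 := by
  by_contra hcon
  push Not at hcon
  have him : ∀ p, (GG L p).im ≠ 0 := fun p => hcon (uvec p) (uvec_sq p)
  have hs0 : ∀ s t w, GG L (s, 0, w) = GG L (s, 0, t) := by
    intro s t w
    unfold GG uvec uax
    simp
  have key := deg_inv (ff L) (ff_contDiff L him) (ff_norm L him) ?_ ?_ ?_ ?_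
  · have e1 : GG L (0, 0, 0) = uq qK (sm L 0 + sm L 1 + sm L 2) := by
      have := Wq_aligned (uvec (0, 0, 0)) ![1, 1, 1] (by intro i; fin_cases i <;> simp) (by
        intro i
        fin_cases i <;> simp [uvec, uax, xax, qK]) L
      simpa [GG] using this
    have e2 : GG L (0, Real.pi, 0) = uq qK (-sm L 0 + sm L 1 + sm L 2) := by
      have := Wq_aligned (uvec (0, Real.pi, 0)) ![-1, 1, 1] (by intro i; fin_cases i <;> simp) (by
        intro i
        fin_cases i
        · ext <;> simp [uvec, uax, qK]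
        · simp [uvec]
        · simp [uvec, xax, qK]) L
      simpa [GG] using this
    have e3 : GG L (Real.pi, 0, 0) = uq qK (sm L 0 + sm L 1 - sm L 2) := by
      have := Wq_aligned (uvec (Real.pi, 0, 0)) ![1, 1, -1] (by intro i; fin_cases i <;> simp) (by
        intro i
        fin_cases i
        · simp [uvec, uax, qK]
        · simp [uvec]
        · ext <;> simp [uvec, xax, qK]) L
      simpa [GG, sub_eq_add_neg] using this
    have e4 : GG L (Real.pi, Real.pi, 0) = uq qK (-(sm L 0 - sm L 1 + sm L 2)) := by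
      have := Wq_aligned (uvec (Real.pi, Real.pi, 0)) ![-1, 1, -1]
        (by intro i; fin_cases i <;> simp) (by
        intro i
        fin_cases i
        · ext <;> simp [uvec, uax, qK]
        · simp [uvec]
        · ext <;> simp [uvec, xax, qK]) L
      rw [GG, this]
      congr 1
      simp
      ring
    rw [ff_aligned L _ _ e1, ff_aligned L _ _ e2, ff_aligned L _ _ e3, ff_aligned L _ _ e4] at key
    have hne : ∀ p X, GG L p = uq qK X → Real.sin (Real.pi * X) ≠ 0 := by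
      intro p X hX h0
      apply him p
      rw [hX]
      exact im_aligned X h0
    have hpos : ∀ X : ℝ, 0 ≤ X → X ≤ 1 → Real.sin (Real.pi * X) ≠ 0 →
        0 < Real.sin (Real.pi * X) := by
      intro X hX hX' hn
      refine lt_of_le_of_ne (Real.sin_nonneg_of_nonneg_of_le_pi ?_ ?_) hn.symm
      · exact mul_nonneg Real.pi_pos.le hX
      · exact mul_le_of_le_one_right Real.pi_pos.le hX'
    have n1 := hne _ _ e1
    have p2 := hpos _ h3 h3' (hne _ _ e2)
    have p3 := hpos _ h1 h1' (hne _ _ e3)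
    have n4 := hne _ _ e4
    rw [mul_neg, Real.sin_neg] at n4 key
    have p4 := hpos _ h2 h2' (fun h => n4 (by rw [h, neg_zero]))
    rw [abs_of_pos p2, abs_of_pos p3, abs_neg, abs_of_pos p4, div_self p2.ne', div_self p3.ne',
      neg_div, div_self p4.ne'] at key
    have h5 : Real.sin (Real.pi * (sm L 0 + sm L 1 + sm L 2)) /
        |Real.sin (Real.pi * (sm L 0 + sm L 1 + sm L 2))| ≤ 1 :=
      div_le_one_of_le₀ (le_abs_self _) (abs_nonneg _)
    linarith
  · intro i s w
    have := hs0 s 0 w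
    unfold ff
    rw [this]
  · intro i s w
    have : GG L (s, Real.pi, w) = GG L (s, Real.pi, 0) := by
      unfold GG uvec uax
      simp
    unfold ff
    rw [this]
  · intro i s t w
    have : GG L (s, t, w + 2 * Real.pi) = GG L (s, t, w) := by
      unfold GG uvec uax
      simp only [Real.cos_add_two_pi, Real.sin_add_two_pi]
    unfold ff
    rw [this]
  · intro s hs t w
    exact ff_rot L him s hs t w

end Pool.Agent.Lib.HowF
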