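import Pool.Agent.Lib.HowF.Top
import Pool.Agent.Lib.HowF.Char

/-!
# The quotient of a free product of three abelian groups by one element
-/

set_option autoImplicit false

open scoped Quaternion
open Monoid (Coprod)
open Monoid.Coprod (inl inr fst snd lift map)

namespace Pool.Agent.Lib.HowF

/-- the representation given by a character and an axis -/
noncomputable def rho {A : Type} [Group A] (χ : Additive A →+ AddCircle (1 : ℝ)) (u : Sph) :
    A →* MulAut ℍ[ℝ]ˣ :=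
  MonoidHom.toAdditive.symm ((ec u).comp χ)

theorem rho_apply {A : Type} [Group A] (χ : Additive A →+ AddCircle (1 : ℝ)) (u : Sph) (a : A) :
    rho χ u a = (ec u (χ (Additive.ofMul a))).toMul := rfl

theorem rho_ne_one {A : Type} [Group A] (χ : Additive A →+ AddCircle (1 : ℝ)) (u : Sph) (a : A)
    (h : χ (Additive.ofMul a) ≠ 0) : rho χ u a ≠ 1 := fun h1 => ec_ne_zero u _ h h1

/-- the representation of the free product -/
noncomputable def rho3 {A B C : Type} [Group A] [Group B] [Group C]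
    (χ₁ : Additive A →+ AddCircle (1 : ℝ)) (χ₂ : Additive B →+ AddCircle (1 : ℝ))
    (χ₃ : Additive C →+ AddCircle (1 : ℝ)) (u : Fin 3 → Sph) :
    Coprod A (Coprod B C) →* MulAut ℍ[ℝ]ˣ :=
  lift (rho χ₁ (u 0)) (lift (rho χ₂ (u 1)) (rho χ₃ (u 2)))

theorem rho_single {A : Type} [Group A] (χ : Additive A →+ AddCircle (1 : ℝ)) (a : A) :
    ∃ t : ℝ, χ (Additive.ofMul a) = (t : AddCircle (1 : ℝ)) ∧
      ∀ u : Sph, rho χ u a = MulAut.conj (uu u t) := by
  obtain ⟨t, ht⟩ := QuotientAddGroup.mk_surjective (χ (Additive.ofMul a))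
  refine ⟨t, ht.symm, fun u => ?_⟩
  rw [rho_apply, ← ht]
  rfl

theorem WU_single (u : Fin 3 → Sph) (i : Fin 3) (t : ℝ) : WU u [(i, t)] = uu (u i) t := by
  simp [WU]

/-- every element is represented by a list of letters -/
theorem word_list {A B C : Type} [Group A] [Group B] [Group C]
    (χ₁ : Additive A →+ AddCircle (1 : ℝ)) (χ₂ : Additive B →+ AddCircle (1 : ℝ))
    (χ₃ : Additive C →+ AddCircle (1 : ℝ)) (w : Coprod A (Coprod B C)) :
    ∃ L : List (Fin 3 × ℝ), (∀ u, rho3 χ₁ χ₂ χ₃ u w = MulAut.conj (WU u L)) ∧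
      χ₁ (Additive.ofMul (fst w)) = (sm L 0 : AddCircle (1 : ℝ)) ∧
      χ₂ (Additive.ofMul (fst (snd w))) = (sm L 1 : AddCircle (1 : ℝ)) ∧
      χ₃ (Additive.ofMul (snd (snd w))) = (sm L 2 : AddCircle (1 : ℝ)) := by
  have hmul : ∀ w w' : Coprod A (Coprod B C),
      (∃ L : List (Fin 3 × ℝ), (∀ u, rho3 χ₁ χ₂ χ₃ u w = MulAut.conj (WU u L)) ∧
      χ₁ (Additive.ofMul (fst w)) = (sm L 0 : AddCircle (1 : ℝ)) ∧
      χ₂ (Additive.ofMul (fst (snd w))) = (sm L 1 : AddCircle (1 : ℝ)) ∧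
      χ₃ (Additive.ofMul (snd (snd w))) = (sm L 2 : AddCircle (1 : ℝ))) →
      (∃ L : List (Fin 3 × ℝ), (∀ u, rho3 χ₁ χ₂ χ₃ u w' = MulAut.conj (WU u L)) ∧
      χ₁ (Additive.ofMul (fst w')) = (sm L 0 : AddCircle (1 : ℝ)) ∧
      χ₂ (Additive.ofMul (fst (snd w'))) = (sm L 1 : AddCircle (1 : ℝ)) ∧
      χ₃ (Additive.ofMul (snd (snd w'))) = (sm L 2 : AddCircle (1 : ℝ))) →
      (∃ L : List (Fin 3 × ℝ), (∀ u, rho3 χ₁ χ₂ χ₃ u (w * w') = MulAut.conj (WU u L)) ∧
      χ₁ (Additive.ofMul (fst (w * w'))) = (sm L 0 : AddCircle (1 : ℝ)) ∧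
      χ₂ (Additive.ofMul (fst (snd (w * w')))) = (sm L 1 : AddCircle (1 : ℝ)) ∧
      χ₃ (Additive.ofMul (snd (snd (w * w')))) = (sm L 2 : AddCircle (1 : ℝ))) := by
    rintro w w' ⟨L, h1, h2, h3, h4⟩ ⟨L', h1', h2', h3', h4'⟩
    refine ⟨L ++ L', fun u => ?_, ?_, ?_, ?_⟩
    · rw [map_mul, h1, h1', WU_append, map_mul]
    · rw [map_mul, ofMul_mul, map_add, h2, h2', sm_append, AddCircle.coe_add]
    · rw [map_mul, map_mul, ofMul_mul, map_add, h3, h3', sm_append, AddCircle.coe_add]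
    · rw [map_mul, map_mul, ofMul_mul, map_add, h4, h4', sm_append, AddCircle.coe_add]
  induction w using Monoid.Coprod.induction_on' with
  | one =>
    refine ⟨[], fun u => ?_, ?_, ?_, ?_⟩
    · rw [map_one]
      show 1 = MulAut.conj (1 : ℍ[ℝ]ˣ)
      rw [map_one]
    · simp [sm_nil]
    · simp [sm_nil]
    · simp [sm_nil]
  | inl_mul a w ih =>
    refine hmul _ _ ?_ ih
    obtain ⟨t, ht, hu⟩ := rho_single χ₁ a
    refine ⟨[(0, t)], fun u => ?_, ?_, ?_, ?_⟩
    · rw [WU_single, ← hu]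
      simp [rho3]
    · simp [sm, ht]
    · simp [sm]
    · simp [sm]
  | inr_mul x w ih =>
    refine hmul _ _ ?_ ih
    clear ih
    induction x using Monoid.Coprod.induction_on with
    | inl b =>
      obtain ⟨t, ht, hu⟩ := rho_single χ₂ b
      refine ⟨[(1, t)], fun u => ?_, ?_, ?_, ?_⟩
      · rw [WU_single, ← hu]
        simp [rho3]
      · simp [sm]
      · simp [sm, ht]
      · simp [sm]
    | inr c =>
      obtain ⟨t, ht, hu⟩ := rho_single χ₃ c
      refine ⟨[(2, t)], fun u => ?_, ?_, ?_, ?_⟩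
      · rw [WU_single, ← hu]
        simp [rho3]
      · simp [sm]
      · simp [sm]
      · simp [sm, ht]
    | mul x y hx hy =>
      rw [map_mul]
      exact hmul _ _ hx hy

/-- a representation which kills the word -/
theorem exists_rep {A B C : Type} [Group A] [Group B] [Group C]
    (χ₁ : Additive A →+ AddCircle (1 : ℝ)) (χ₂ : Additive B →+ AddCircle (1 : ℝ))
    (χ₃ : Additive C →+ AddCircle (1 : ℝ)) (w : Coprod A (Coprod B C)) (x y z : ℝ)
    (hx : χ₁ (Additive.ofMul (fst w)) = (x : AddCircle (1 : ℝ)))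
    (hy : χ₂ (Additive.ofMul (fst (snd w))) = (y : AddCircle (1 : ℝ)))
    (hz : χ₃ (Additive.ofMul (snd (snd w))) = (z : AddCircle (1 : ℝ)))
    (h1 : 0 ≤ x + y - z) (h1' : x + y - z ≤ 1) (h2 : 0 ≤ x - y + z) (h2' : x - y + z ≤ 1)
    (h3 : 0 ≤ -x + y + z) (h3' : -x + y + z ≤ 1) :
    ∃ u : Fin 3 → Sph, rho3 χ₁ χ₂ χ₃ u w = 1 := by
  obtain ⟨L, hL, l1, l2, l3⟩ := word_list χ₁ χ₂ χ₃ w
  have key : ∀ s t : ℝ, (s : AddCircle (1 : ℝ)) = (t : AddCircle (1 : ℝ)) →
      ∃ n : ℤ, t = s + n := by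
    intro s t hst
    have h : ((t - s : ℝ) : AddCircle (1 : ℝ)) = 0 := by
      rw [AddCircle.coe_sub, hst, sub_self]
    rw [AddCircle.coe_eq_zero_iff] at h
    obtain ⟨n, hn⟩ := h
    refine ⟨n, ?_⟩
    rw [zsmul_eq_mul, mul_one] at hn
    linarith
  obtain ⟨n1, hn1⟩ := key _ _ (l1.symm.trans hx)
  obtain ⟨n2, hn2⟩ := key _ _ (l2.symm.trans hy)
  obtain ⟨n3, hn3⟩ := key _ _ (l3.symm.trans hz)
  let M : List (Fin 3 × ℝ) := [(0, (n1 : ℝ)), (1, (n2 : ℝ)), (2, (n3 : ℝ))]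
  have s1 : sm (L ++ M) 0 = x := by
    rw [sm_append, hn1]
    simp [sm, M]
  have s2 : sm (L ++ M) 1 = y := by
    rw [sm_append, hn2]
    simp [sm, M]
  have s3 : sm (L ++ M) 2 = z := by
    rw [sm_append, hn3]
    simp [sm, M]
  obtain ⟨u, hu, him⟩ := top_main (L ++ M) (by rw [s1, s2, s3]; exact h1)
    (by rw [s1, s2, s3]; exact h1') (by rw [s1, s2, s3]; exact h2) (by rw [s1, s2, s3]; exact h2')
    (by rw [s1, s2, s3]; exact h3) (by rw [s1, s2, s3]; exact h3')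
  let v : Fin 3 → Sph := fun i => ⟨u i, hu i⟩
  refine ⟨v, ?_⟩
  have h4 : ((WU v (L ++ M) : ℍ[ℝ]ˣ) : ℍ[ℝ]).im = 0 := by
    rw [WU_val]
    exact him
  have h5 := conj_eq_one _ h4
  rw [WU_append, map_mul, ← hL] at h5
  have h6 : MulAut.conj (WU v M) = 1 := by
    have : WU v M = uu (v 0) n1 * (uu (v 1) n2 * uu (v 2) n3) := by simp [WU, M]
    rw [this, map_mul, map_mul, uu_conj_int, uu_conj_int, uu_conj_int]
    simp
  rw [h6, mul_one] at h5
  exact h5

/-! ### the characters of a group in which all elements commute -/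

theorem char_third' {A : Type} [Group A] (hA : ∀ x y : A, x * y = y * x) (w : A) (hw : w ≠ 1) :
    ∃ (χ : Additive A →+ AddCircle (1 : ℝ)) (x : ℝ),
      χ (Additive.ofMul w) = (x : AddCircle (1 : ℝ)) ∧ 1 / 3 ≤ x ∧ x ≤ 1 / 2 := by
  let _ : CommGroup A := { ‹Group A› with mul_comm := hA }
  exact char_third (A := Additive A) (Additive.ofMul w) hw

theorem char_sixth' {A : Type} [Group A] (hA : ∀ x y : A, x * y = y * x) (w h : A) (hw : w ≠ 1)
    (hh : h ≠ 1) : ∃ (χ : Additive A →+ AddCircle (1 : ℝ)) (x : ℝ),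
      χ (Additive.ofMul w) = (x : AddCircle (1 : ℝ)) ∧ 1 / 6 ≤ x ∧ x ≤ 1 / 2 ∧
      χ (Additive.ofMul h) ≠ 0 := by
  let _ : CommGroup A := { ‹Group A› with mul_comm := hA }
  exact char_sixth (A := Additive A) (Additive.ofMul w) (Additive.ofMul h) hw hh

/-- the three factors embed in the one-relator quotient -/
theorem abelian_embeds {A B C : Type} [Group A] [Group B] [Group C]
    (hA : ∀ x y : A, x * y = y * x) (hB : ∀ x y : B, x * y = y * x)
    (hC : ∀ x y : C, x * y = y * x) (w : Coprod A (Coprod B C))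
    (h1 : fst w ≠ 1) (h2 : fst (snd w) ≠ 1) (h3 : snd (snd w) ≠ 1) :
    (∀ a : A, inl a ∈ Subgroup.normalClosure ({w} : Set (Coprod A (Coprod B C))) → a = 1) ∧
    (∀ b : B, inr (inl b) ∈ Subgroup.normalClosure ({w} : Set (Coprod A (Coprod B C))) → b = 1) ∧
    (∀ c : C, inr (inr c) ∈ Subgroup.normalClosure ({w} : Set (Coprod A (Coprod B C))) → c = 1) := by
  have hker : ∀ f : Coprod A (Coprod B C) →* MulAut ℍ[ℝ]ˣ, f w = 1 →
      ∀ g ∈ Subgroup.normalClosure ({w} : Set (Coprod A (Coprod B C))), f g = 1 := by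
    intro f hf g hg
    have : Subgroup.normalClosure ({w} : Set (Coprod A (Coprod B C))) ≤ f.ker :=
      Subgroup.normalClosure_le_normal (by
        intro x hx
        rw [Set.mem_singleton_iff] at hx
        rw [hx]
        exact hf)
    exact this hg
  refine ⟨fun a ha => ?_, fun b hb => ?_, fun c hc => ?_⟩
  · by_contra hne
    obtain ⟨χ₁, x, hx, hx1, hx2, hx3⟩ := char_sixth' hA _ a h1 hne
    obtain ⟨χ₂, y, hy, hy1, hy2⟩ := char_third' hB _ h2
    obtain ⟨χ₃, z, hz, hz1, hz2⟩ := char_third' hC _ h3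
    obtain ⟨u, hu⟩ := exists_rep χ₁ χ₂ χ₃ w x y z hx hy hz (by linarith) (by linarith)
      (by linarith) (by linarith) (by linarith) (by linarith)
    have := hker _ hu _ ha
    rw [rho3, Monoid.Coprod.lift_apply_inl] at this
    exact rho_ne_one χ₁ _ a hx3 this
  · by_contra hne
    obtain ⟨χ₂, y, hy, hy1, hy2, hy3⟩ := char_sixth' hB _ b h2 hne
    obtain ⟨χ₁, x, hx, hx1, hx2⟩ := char_third' hA _ h1
    obtain ⟨χ₃, z, hz, hz1, hz2⟩ := char_third' hC _ h3
    obtain ⟨u, hu⟩ := exists_rep χ₁ χ₂ χ₃ w x y z hx hy hz (by linarith) (by linarith)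
      (by linarith) (by linarith) (by linarith) (by linarith)
    have := hker _ hu _ hb
    rw [rho3, Monoid.Coprod.lift_apply_inr, Monoid.Coprod.lift_apply_inl] at this
    exact rho_ne_one χ₂ _ b hy3 this
  · by_contra hne
    obtain ⟨χ₃, z, hz, hz1, hz2, hz3⟩ := char_sixth' hC _ c h3 hne
    obtain ⟨χ₁, x, hx, hx1, hx2⟩ := char_third' hA _ h1
    obtain ⟨χ₂, y, hy, hy1, hy2⟩ := char_third' hB _ h2
    obtain ⟨u, hu⟩ := exists_rep χ₁ χ₂ χ₃ w x y z hx hy hz (by linarith) (by linarith)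
      (by linarith) (by linarith) (by linarith) (by linarith)
    have := hker _ hu _ hc
    rw [rho3, Monoid.Coprod.lift_apply_inr, Monoid.Coprod.lift_apply_inr] at this
    exact rho_ne_one χ₃ _ c hz3 this

end Pool.Agent.Lib.HowF
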